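import Pool.Agent.W2helper56.CK.Defs
import Pool.Agent.W2helper56.Util
import Pool.Agent.H719.PC.Reach
import Pool.Agent.H656R2.AK.GameIn
import Pool.Agent.H656R2.AK.Bisim

/-!
# Two-player Clickomania is in `PSPACE`
-/

set_option autoImplicit false

namespace Pool.Agent.W2helper56.CK

open Relation Pool.Agent.NPC Pool.Agent.H623R2.PS
open Pool.Agent.H719.PC (reachG mem_reachG poly_reachG)
open Pool.Agent.H656R2.AK (W mvL inPSPACE_of_game)

/-- the places of the blocks -/
def cells (P : Pos) : List (ℕ × ℕ) :=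
  P.zipIdx.flatMap fun ci => ci.1.zipIdx.map fun xj => (ci.2, xj.2)

/-- adjacency, computed -/
def adjB (P : Pos) (x y : ℕ × ℕ) : Bool :=
  ((decide (x.1 = y.1) && (decide (x.2 + 1 = y.2) || decide (y.2 + 1 = x.2))) ||
    (decide (x.2 = y.2) && (decide (x.1 + 1 = y.1) || decide (y.1 + 1 = x.1)))) &&
  ((cell P x).isSome && decide (cell P x = cell P y))

/-- the group, computed -/
def grp (P : Pos) (x : ℕ × ℕ) : List (ℕ × ℕ) := reachG (adjB P) (cells P) x

/-- the column without the blocks of a group -/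
def rmc (G : List (ℕ × ℕ)) (ci : List ℕ × ℕ) : List ℕ :=
  (ci.1.zipIdx.filter fun cj => !decide ((ci.2, cj.2) ∈ G)).map Prod.fst

/-- the removal of a group -/
def rmv (P : Pos) (G : List (ℕ × ℕ)) : Pos :=
  (P.zipIdx.map (rmc G)).filter fun col => !decide (col = [])

/-- the moves -/
def mvs (P : Pos) : List Pos :=
  ((cells P).filter fun x => (grp P x).any fun y => !decide (y = x)).map fun x => rmv P (grp P x)

theorem mem_cells {P : Pos} {x : ℕ × ℕ} : x ∈ cells P ↔ cell P x ≠ none := by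
  unfold cells cell
  simp only [List.mem_flatMap, List.mem_map]
  constructor
  · rintro ⟨⟨col, i⟩, h1, ⟨c, j⟩, h2, rfl⟩
    rw [List.mem_zipIdx_iff_getElem?] at h1 h2
    simp only at h1 h2 ⊢
    rw [List.getD_eq_getElem?_getD, h1, Option.getD_some, h2]
    simp
  · intro h
    obtain ⟨i, j⟩ := x
    simp only at h
    rw [List.getD_eq_getElem?_getD] at h
    cases h1 : P[i]? with
    | none => rw [h1] at h; simp at h
    | some col =>
      rw [h1, Option.getD_some] at h
      cases h2 : col[j]? with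
      | none => exact absurd h2 h
      | some c =>
        exact ⟨(col, i), List.mem_zipIdx_iff_getElem?.2 h1, (c, j),
          List.mem_zipIdx_iff_getElem?.2 h2, rfl⟩

theorem adjB_iff {P : Pos} {x y : ℕ × ℕ} : adjB P x y = true ↔ Adj P x y := by
  unfold adjB Adj Share
  simp only [Bool.and_eq_true, Bool.or_eq_true, decide_eq_true_eq, Option.isSome_iff_ne_none]

theorem Adj.mem_cells {P : Pos} {x y : ℕ × ℕ} (h : Adj P x y) : y ∈ cells P := by
  rw [CK.mem_cells, ← h.2.2]
  exact h.2.1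

theorem mem_grp {P : Pos} {x y : ℕ × ℕ} (hx : x ∈ cells P) : y ∈ grp P x ↔ y ∈ Group P x := by
  unfold grp Group
  rw [mem_reachG, Set.mem_setOf_eq]
  constructor
  · rintro ⟨_, h⟩
    exact ReflTransGen.lift id (fun a b hab => adjB_iff.1 hab.1) _ _ h
  · intro h
    exact ⟨hx, ReflTransGen.lift id (fun a b hab => ⟨adjB_iff.2 hab, hab.mem_cells⟩) _ _ h⟩

theorem rmv_eq {P : Pos} {x : ℕ × ℕ} (hx : x ∈ cells P) :
    rmv P (grp P x) = remove P (Group P x) := by
  classical
  unfold rmv remove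
  congr 1
  · funext col
    rw [← decide_not]
  · rw [List.mapIdx_eq_zipIdx_map]
    refine List.map_congr_left fun ci _ => ?_
    unfold rmc
    congr 1
    refine List.filter_congr fun cj _ => ?_
    rw [← decide_not]
    refine decide_eq_decide.2 ?_
    rw [mem_grp hx]

theorem mem_mvs {P P' : Pos} : P' ∈ mvs P ↔ Move P P' := by
  unfold mvs Move
  simp only [List.mem_map, List.mem_filter, List.any_eq_true]
  constructor
  · rintro ⟨x, ⟨hx, y, hy, hyx⟩, rfl⟩
    refine ⟨x, mem_cells.1 hx, ⟨x, .refl, y, (mem_grp hx).1 hy, ?_⟩, rmv_eq hx⟩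
    intro e
    rw [e] at hyx
    simp at hyx
  · rintro ⟨x, hx, hnt, rfl⟩
    have hx' := mem_cells.2 hx
    obtain ⟨y, hy, hyx⟩ := hnt.exists_ne x
    exact ⟨x, ⟨hx', y, (mem_grp hx').2 hy, by simpa using hyx⟩, rmv_eq hx'⟩

theorem firstWins_iff' (P : Pos) : FirstWins P ↔ W (mvL mvs) P := by
  constructor
  · intro h
    induction h with
    | move h h' ih => exact W.mk _ _ (mem_mvs.2 h) fun c hc => ih c (mem_mvs.1 hc)
  · intro h
    induction h with
    | mk a b h hb ih => exact FirstWins.move (mem_mvs.1 h) fun c hc => ih c (mem_mvs.2 hc)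

/-- the number of blocks -/
def nbk (P : Pos) : ℕ := P.flatten.length

theorem zipIdx_len (P : Pos) : (P.zipIdx.map fun ci => ci.1.length) = P.map List.length := by
  have h := congrArg (List.map List.length) (List.zipIdx_map_fst 0 P)
  rwa [List.map_map] at h

theorem length_cells (P : Pos) : (cells P).length = nbk P := by
  unfold cells nbk
  rw [List.length_flatMap, List.length_flatten]
  congr 1
  simp only [List.length_map, List.length_zipIdx]
  exact zipIdx_len P

theorem rmc_sublist (G : List (ℕ × ℕ)) (ci : List ℕ × ℕ) : (rmc G ci).Sublist ci.1 := by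
  unfold rmc
  have h := (List.filter_sublist (l := ci.1.zipIdx)
    (p := fun cj => !decide ((ci.2, cj.2) ∈ G))).map Prod.fst
  rwa [List.zipIdx_map_fst] at h

theorem flatten_filter (l : Pos) : (l.filter fun col => !decide (col = [])).flatten = l.flatten := by
  induction l with
  | nil => rfl
  | cons a l ih =>
    rw [List.filter_cons]
    split_ifs with h
    · rw [List.flatten_cons, List.flatten_cons, ih]
    · have : a = [] := by simpa using h
      rw [this, ih]
      rfl

theorem nbk_rmv_lt {P : Pos} {G : List (ℕ × ℕ)} {x : ℕ × ℕ} (hx : x ∈ cells P) (hG : x ∈ G) :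
    nbk (rmv P G) < nbk P := by
  unfold nbk rmv
  rw [flatten_filter, List.length_flatten, List.length_flatten, List.map_map]
  have h1 : (P.map List.length).sum = (P.zipIdx.map fun ci => ci.1.length).sum := by
    rw [zipIdx_len]
  rw [h1]
  refine List.sum_lt_sum _ _ (fun ci _ => (rmc_sublist G ci).length_le) ?_
  unfold cells at hx
  simp only [List.mem_flatMap, List.mem_map] at hx
  obtain ⟨⟨col, i⟩, h2, ⟨c, j⟩, h3, rfl⟩ := hx
  refine ⟨(col, i), h2, ?_⟩
  simp only [Function.comp_apply]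
  unfold rmc
  rw [List.length_map]
  have h4 : (col.zipIdx.filter fun cj => !decide ((i, cj.2) ∈ G)).length < col.zipIdx.length := by
    rw [List.length_filter_lt_length_iff_exists]
    exact ⟨(c, j), h3, by simpa using hG⟩
  rwa [List.length_zipIdx] at h4

theorem nbk_mvs {P P' : Pos} (h : P' ∈ mvs P) : nbk P' < nbk P := by
  unfold mvs at h
  rw [List.mem_map] at h
  obtain ⟨x, hx, rfl⟩ := h
  rw [List.mem_filter] at hx
  exact nbk_rmv_lt hx.1 ((mem_grp hx.1).2 .refl)

theorem sz_map_le (G : List (ℕ × ℕ)) : ∀ (l : Pos) (k : ℕ), sz ((l.zipIdx k).map (rmc G)) ≤ sz l := by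
  intro l
  induction l with
  | nil => intro k; simp
  | cons a l ih =>
    intro k
    rw [List.zipIdx_cons, List.map_cons, sz_list_cons, sz_list_cons]
    have h1 := sz_sublist (rmc_sublist G (a, k))
    have h2 := ih (k + 1)
    simp only at h1
    omega

theorem sz_mvs {P P' : Pos} (h : P' ∈ mvs P) : sz P' ≤ sz P := by
  unfold mvs at h
  rw [List.mem_map] at h
  obtain ⟨x, _, rfl⟩ := h
  unfold rmv
  exact (sz_sublist List.filter_sublist).trans (sz_map_le _ P 0)

theorem poly_cells : NPC.Poly cells := by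
  unfold cells
  refine NPC.Poly.flatMap (l := fun P : Pos => P.zipIdx)
    (F := fun _ (ci : List ℕ × ℕ) => ci.1.zipIdx.map fun xj => (ci.2, xj.2)) (by fun_prop) ?_
  exact NPC.Poly.map (l := fun p : Pos × (List ℕ × ℕ) => p.2.1.zipIdx)
    (F := fun p xj => (p.2.2, xj.2)) (by fun_prop) (by fun_prop)

theorem poly_cell : NPC.Poly (fun p : Pos × ℕ × ℕ => cell p.1 p.2) := by
  unfold cell
  exact NPC.Poly.getElem? (NPC.Poly.getD (d := fun _ => []) (by fun_prop) (by fun_prop)
    (by fun_prop)) (by fun_prop)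

theorem poly_adjB : NPC.Poly (fun p : Pos × (ℕ × ℕ) × (ℕ × ℕ) => adjB p.1 p.2.1 p.2.2) := by
  unfold adjB
  have h1 := poly_cell.comp (f := fun p : Pos × (ℕ × ℕ) × (ℕ × ℕ) => (p.1, p.2.1)) (by fun_prop)
  have h2 := poly_cell.comp (f := fun p : Pos × (ℕ × ℕ) × (ℕ × ℕ) => (p.1, p.2.2)) (by fun_prop)
  refine NPC.Poly.and (by fun_prop) (NPC.Poly.and ?_ ?_)
  · exact NPC.Poly.isSome h1
  · exact NPC.Poly.decide_eq h1 h2

theorem poly_grp : NPC.Poly (fun p : Pos × (ℕ × ℕ) => grp p.1 p.2) := by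
  unfold grp
  refine poly_reachG (R := fun p : Pos × (ℕ × ℕ) => adjB p.1) (S := fun p => cells p.1)
    (x := fun p => p.2) ?_ (poly_cells.comp (by fun_prop)) (by fun_prop)
  exact poly_adjB.comp (f := fun q : (Pos × (ℕ × ℕ)) × (ℕ × ℕ) × (ℕ × ℕ) =>
    (q.1.1, q.2.1, q.2.2)) (by fun_prop)

theorem poly_rmv : NPC.Poly (fun p : Pos × List (ℕ × ℕ) => rmv p.1 p.2) := by
  unfold rmv rmc
  fun_prop

theorem poly_mvs : NPC.Poly mvs := by
  unfold mvs
  have h1 : NPC.Poly (fun p : Pos × (ℕ × ℕ) => (grp p.1 p.2).any fun y => !decide (y = p.2)) :=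
    NPC.Poly.any (l := fun p : Pos × (ℕ × ℕ) => grp p.1 p.2)
      (p := fun p y => !decide (y = p.2)) poly_grp (by fun_prop)
  refine NPC.Poly.map (l := fun P : Pos => (cells P).filter fun x =>
      (grp P x).any fun y => !decide (y = x)) (F := fun P x => rmv P (grp P x)) ?_ ?_
  · exact NPC.Poly.filter (p := fun P x => (grp P x).any fun y => !decide (y = x)) poly_cells h1
  · exact poly_rmv.comp (f := fun p : Pos × (ℕ × ℕ) => (p.1, grp p.1 p.2))
      (NPC.Poly.pair (by fun_prop) poly_grp)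

/-- the test of the instances -/
def valid (I : ℕ × ℕ × ℕ × Pos) : Bool :=
  decide (0 < I.2.1) && (decide (0 < I.2.2.1) && (decide (I.2.2.2.length = I.2.1) &&
    I.2.2.2.all fun col => decide (col.length = I.2.2.1) && col.all fun c => decide (c < I.1)))

theorem valid_iff (I : ℕ × ℕ × ℕ × Pos) :
    valid I = true ↔ IsGrid I.1 I.2.1 I.2.2.1 I.2.2.2 := by
  unfold valid IsGrid
  simp only [Bool.and_eq_true, decide_eq_true_eq, List.all_eq_true]

theorem poly_valid : NPC.Poly valid := by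
  unfold valid
  fun_prop

/-- the positions with a flag -/
def mvs' (b : Bool × Pos) : List (Bool × Pos) := (mvs b.2).map fun P => (b.1, P)

theorem poly_mvs' : NPC.Poly mvs' := by
  unfold mvs'
  exact NPC.Poly.map (l := fun b : Bool × Pos => mvs b.2) (F := fun b P => (b.1, P))
    (poly_mvs.comp (by fun_prop)) (by fun_prop)

theorem W_flag (v : Bool) (P : Pos) : W (mvL mvs') (v, P) ↔ W (mvL mvs) P := by
  refine Pool.Agent.H656R2.AK.W_bisim_iff (fun a b => a.2 = b) ?_ ?_ rfl
  · rintro ⟨v, P⟩ _ ⟨v', P'⟩ rfl h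
    unfold mvL mvs' at h
    rw [List.mem_map] at h
    obtain ⟨P'', h1, h2⟩ := h
    rw [Prod.mk.injEq] at h2
    exact ⟨P'', h1, h2.2.symm⟩
  · rintro ⟨v, P⟩ _ P' rfl h
    exact ⟨(v, P'), List.mem_map.2 ⟨P', h, rfl⟩, rfl⟩

theorem mem : InPSPACE (lang Clickomania) := by
  have hdec : NPC.Poly (fun x : List Bool =>
      (unbits (ℕ × ℕ × ℕ × Pos) x).getD (0, 0, 0, [])) :=
    NPC.Poly.optGetD poly_unbits (NPC.Poly.const _)
  have hinit : NPC.Poly (fun x : List Bool =>
      (valid ((unbits (ℕ × ℕ × ℕ × Pos) x).getD (0, 0, 0, [])),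
        ((unbits (ℕ × ℕ × ℕ × Pos) x).getD (0, 0, 0, [])).2.2.2)) :=
    NPC.Poly.pair (poly_valid.comp hdec) (NPC.Poly.snd (NPC.Poly.snd (NPC.Poly.snd hdec)))
  refine inPSPACE_of_game hinit (good := fun b => b.1) (by fun_prop) poly_mvs' ?_
    (w := fun x => nbk ((unbits (ℕ × ℕ × ℕ × Pos) x).getD (0, 0, 0, [])).2.2.2 + 1) ?_
    (fun x b => nbk b.2 ≤ nbk ((unbits (ℕ × ℕ × ℕ × Pos) x).getD (0, 0, 0, [])).2.2.2)
    (fun b => nbk b.2) ?_ ?_ ?_ ?_
  · rintro ⟨v, P⟩ b' hb'
    unfold mvs' at hb'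
    rw [List.mem_map] at hb'
    obtain ⟨P', h1, rfl⟩ := hb'
    change sz (v, P') ≤ sz (v, P)
    rw [sz_pair, sz_pair]
    have : sz P' ≤ sz P := sz_mvs h1
    omega
  · refine UPoly.add ?_ (UPoly.const 1)
    exact UPoly.length (NPC.Poly.flatten (NPC.Poly.snd (NPC.Poly.snd (NPC.Poly.snd hdec))))
  · intro x
    exact le_rfl
  · rintro x ⟨v, P⟩ hb b' hb'
    unfold mvs' at hb'
    rw [List.mem_map] at hb'
    obtain ⟨P', h1, rfl⟩ := hb'
    have := nbk_mvs h1
    simp only at hb this ⊢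
    exact ⟨by omega, by omega⟩
  · rintro x ⟨v, P⟩ hb
    simp only at hb ⊢
    have h1 : (mvs' (v, P)).length ≤ nbk P := by
      unfold mvs' mvs
      rw [List.length_map, List.length_map, ← length_cells]
      exact List.length_filter_le _ _
    exact ⟨by omega, by omega⟩
  · intro x
    simp only
    rw [W_flag, ← firstWins_iff', mem_lang_iff, valid_iff]
    constructor
    · rintro ⟨I, hI, h⟩
      rw [hI, Option.getD_some]
      exact h
    · intro h
      cases hx : unbits (ℕ × ℕ × ℕ × Pos) x with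
      | none =>
        rw [hx, Option.getD_none] at h
        exact absurd h.1.1 (by simp)
      | some I =>
        rw [hx, Option.getD_some] at h
        exact ⟨I, rfl, h⟩

end Pool.Agent.W2helper56.CK
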