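import Pool.Agent.W2helper56.CK.Gad

/-!
# The analysis of the game with gadgets
-/

set_option autoImplicit false

namespace Pool.Agent.W2helper56.CK

open Relation Pool.Agent.H656R2.AK

theorem sdiff_lt {U R R' : Finset Lb} {x : Lb} (h : R ⊆ R') (hx : x ∈ U) (h1 : x ∉ R)
    (h2 : x ∈ R') : (U \ R').card < (U \ R).card := by
  refine Finset.card_lt_card (Finset.ssubset_iff_of_subset
    (Finset.sdiff_subset_sdiff le_rfl h) |>.2 ⟨x, ?_, ?_⟩)
  · exact Finset.mem_sdiff.2 ⟨hx, h1⟩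
  · intro h3
    exact (Finset.mem_sdiff.1 h3).2 h2

theorem SM.wf (S : Sys) : WellFounded fun b a => SM S a b := by
  refine Subrelation.wf (r := fun b a : Finset Lb =>
    ((S.stk.toFinset ∪ (Finset.range S.nc).image fun g => ((4, g, 0) : Lb)) \ b).card <
    ((S.stk.toFinset ∪ (Finset.range S.nc).image fun g => ((4, g, 0) : Lb)) \ a).card) ?_
    (measure _).wf
  intro b a h
  cases h with
  | one l h h' h2 h3 =>
    exact sdiff_lt Finset.subset_union_left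
      (Finset.mem_union_left _ (List.mem_toFinset.2 h)) h' (by simp)
  | both h h' h2 =>
    exact sdiff_lt (x := Y1) Finset.subset_union_left
      (Finset.mem_union_left _ (List.mem_toFinset.2 (Sys.mem_stk.2 (Or.inl rfl)))) h (by simp)
  | kill g hg h h' =>
    exact sdiff_lt (x := (4, g, 0)) Finset.subset_union_left
      (Finset.mem_union_right _ (Finset.mem_image.2 ⟨g, Finset.mem_range.2 (by omega), rfl⟩)) h
      (by simp)

namespace Gd

variable {D : Gd}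

theorem step_cases (hD : D.Wf) {Rm Rm' : Finset Lb} (h : SM D.sys Rm Rm') :
    (∃ b ∈ D.bs, bd b ∉ Rm ∧ Rm' = Rm ∪ {bd b}) ∨
    (∃ l, (l = Y1 ∨ l = Z ∨ l = Y2) ∧ l ∉ Rm ∧ (l = Y1 → Z ∉ Rm ∨ Y2 ∈ Rm) ∧
      (l = Y2 → Z ∉ Rm ∨ Y1 ∈ Rm) ∧ Rm' = Rm ∪ {l}) ∨
    (Y1 ∉ Rm ∧ Y2 ∉ Rm ∧ Z ∈ Rm ∧ Rm' = Rm ∪ {Y1, Y2}) ∨
    (∃ g, D.Avail g Rm ∧ Rm' = Rm ∪ {(4, g, 0), (4, g, 1)}) := by
  cases h with
  | one l h h' h2 h3 =>
    rw [Sys.mem_stk] at h
    rcases h with h | h | h | ⟨b, hb, rfl⟩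
    · exact Or.inr (Or.inl ⟨l, Or.inl h, h', h2, h3, rfl⟩)
    · exact Or.inr (Or.inl ⟨l, Or.inr (Or.inl h), h', h2, h3, rfl⟩)
    · exact Or.inr (Or.inl ⟨l, Or.inr (Or.inr h), h', h2, h3, rfl⟩)
    · exact Or.inl ⟨b, hb, h', rfl⟩
  | both h h' h2 => exact Or.inr (Or.inr (Or.inl ⟨h, h', h2, rfl⟩))
  | kill g hg h h' =>
    have hg' : g < D.G := by
      simp only [sys] at hg
      omega
    obtain ⟨h1, h2, h3⟩ := (kill_iff hD hg' Rm).1 h'
    exact Or.inr (Or.inr (Or.inr ⟨g, ⟨hg', h, h1, h2, h3⟩, rfl⟩))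

theorem step_band {Rm : Finset Lb} {b : ℕ × ℕ} (hb : b ∈ D.bs) (h : bd b ∉ Rm) :
    SM D.sys Rm (Rm ∪ {bd b}) :=
  SM.one _ (Sys.mem_stk.2 (Or.inr (Or.inr (Or.inr ⟨b, hb, rfl⟩)))) h (by simp) (by simp)

theorem step_kill (hD : D.Wf) {Rm : Finset Lb} {g : ℕ} (h : D.Avail g Rm) :
    SM D.sys Rm (Rm ∪ {(4, g, 0), (4, g, 1)}) := by
  obtain ⟨h1, h2, h3⟩ := h
  refine SM.kill g ?_ h2 ((kill_iff hD h1 Rm).2 h3)
  simp only [sys]
  omega

theorem kap_band (Rm : Finset Lb) (b : ℕ × ℕ) : kap (Rm ∪ {bd b}) = kap Rm := by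
  unfold kap
  simp

theorem SB_band {Rm : Finset Lb} {b : ℕ × ℕ} (hb : b ∈ D.bs) :
    D.SB (Rm ∪ {bd b}) = insert b (D.SB Rm) := by
  unfold SB
  ext b'
  simp only [Finset.mem_filter, List.mem_toFinset, Finset.mem_union, Finset.mem_singleton,
    Finset.mem_insert, Prod.mk.injEq, true_and]
  constructor
  · rintro ⟨h1, h2 | h2⟩
    · exact Or.inr ⟨h1, h2⟩
    · exact Or.inl (Prod.ext h2.1 h2.2)
  · rintro (rfl | ⟨h1, h2⟩)
    · exact ⟨hb, Or.inr ⟨rfl, rfl⟩⟩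
    · exact ⟨h1, Or.inl h2⟩

theorem SB_special {Rm : Finset Lb} {l : Lb} (h : l.1 ≠ 2) : D.SB (Rm ∪ {l}) = D.SB Rm := by
  unfold SB
  ext b'
  simp only [Finset.mem_filter, List.mem_toFinset, Finset.mem_union, Finset.mem_singleton]
  have : ¬ bd b' = l := fun e => h (by rw [← e])
  tauto

theorem SB_special2 {Rm : Finset Lb} {l l' : Lb} (h : l.1 ≠ 2) (h' : l'.1 ≠ 2) :
    D.SB (Rm ∪ {l, l'}) = D.SB Rm := by
  unfold SB
  ext b'
  simp only [Finset.mem_filter, List.mem_toFinset, Finset.mem_union, Finset.mem_singleton,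
    Finset.mem_insert]
  have e1 : ¬ bd b' = l := fun e => h (by rw [← e])
  have e2 : ¬ bd b' = l' := fun e => h' (by rw [← e])
  tauto

theorem notMem_SB {Rm : Finset Lb} {b : ℕ × ℕ} (h : bd b ∉ Rm) : b ∉ D.SB Rm := by
  unfold SB
  rw [Finset.mem_filter]
  tauto

/-- the number of the special clicks left -/
def gr (Rm : Finset Lb) : ℕ := if kap Rm = 1 ∧ Z ∈ Rm then 1 else 3 - kap Rm

/-- the number of the clicks left -/
def cnt (D : Gd) (Rm : Finset Lb) : ℕ := (D.bs.length - (D.SB Rm).card) + gr Rm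

theorem cnt_band (hD : D.Wf) {Rm : Finset Lb} {b : ℕ × ℕ} (hb : b ∈ D.bs) (h : bd b ∉ Rm) :
    D.cnt (Rm ∪ {bd b}) + 1 = D.cnt Rm := by
  have h1 : (insert b (D.SB Rm)).card = (D.SB Rm).card + 1 :=
    Finset.card_insert_of_notMem (notMem_SB h)
  have h2 := card_SB_le hD (Rm ∪ {bd b})
  have h3 : gr (Rm ∪ {bd b}) = gr Rm := by
    unfold gr
    rw [kap_band]
    simp
  unfold cnt
  rw [h3]
  rw [SB_band hb, h1] at h2
  rw [SB_band hb, h1]
  omega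

theorem stack_step (hD : D.Wf) {Rm Rm' : Finset Lb} (h : SM D.sys Rm Rm') (hk : 1 ≤ kap Rm)
    (hn : ∀ g, ¬ D.Avail g Rm) : kap Rm ≤ kap Rm' ∧ D.cnt Rm' + 1 = D.cnt Rm := by
  rcases step_cases hD h with ⟨b, hb, h1, rfl⟩ | ⟨l, hl, h1, h2, h3, rfl⟩ | ⟨h1, h2, h3, rfl⟩ |
    ⟨g, hg, _⟩
  · exact ⟨(kap_band _ _).ge, cnt_band hD hb h1⟩
  · have e1 : D.SB (Rm ∪ {l}) = D.SB Rm := SB_special (by rcases hl with rfl | rfl | rfl <;> simp)
    unfold cnt gr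
    rw [e1]
    clear e1 hn h
    unfold kap at *
    rcases hl with rfl | rfl | rfl
    · by_cases c2 : Z ∈ Rm <;> by_cases c3 : Y2 ∈ Rm <;> simp [h1, c2, c3] at * <;> omega
    · by_cases c1 : Y1 ∈ Rm <;> by_cases c3 : Y2 ∈ Rm <;> simp [h1, c1, c3] at * <;> omega
    · by_cases c1 : Y1 ∈ Rm <;> by_cases c2 : Z ∈ Rm <;> simp [h1, c1, c2] at * <;> omega
  · have e1 : D.SB (Rm ∪ {Y1, Y2}) = D.SB Rm := SB_special2 (by simp) (by simp)
    unfold cnt gr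
    rw [e1]
    unfold kap
    simp [h1, h2, h3]
  · exact absurd hg (hn g)

theorem exists_band {Rm : Finset Lb} (h : (D.SB Rm).card < D.bs.length) (hD : D.Wf) :
    ∃ b ∈ D.bs, bd b ∉ Rm := by
  by_contra hc
  push Not at hc
  have : D.SB Rm = D.bs.toFinset := by
    unfold SB
    rw [Finset.filter_true_of_mem]
    intro b hb
    exact hc b (List.mem_toFinset.1 hb)
  rw [this, List.toFinset_card_of_nodup hD.nodup] at h
  omega

theorem kap_le (Rm : Finset Lb) : kap Rm ≤ 3 := by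
  unfold kap
  split_ifs <;> omega

theorem exists_step2 (hD : D.Wf) {Rm : Finset Lb} (hk : 2 ≤ kap Rm) (hc : 0 < D.cnt Rm) :
    ∃ Rm', SM D.sys Rm Rm' ∧ 2 ≤ kap Rm' ∧ D.cnt Rm' + 1 = D.cnt Rm := by
  have hn : ∀ g, ¬ D.Avail g Rm := by
    rintro g ⟨_, _, h, _⟩
    omega
  have h3 := kap_le Rm
  by_cases hk3 : kap Rm = 3
  · have h1 : (D.SB Rm).card < D.bs.length := by
      unfold cnt gr at hc
      rw [if_neg (by omega)] at hc
      omega
    obtain ⟨b, hb, hb'⟩ := exists_band h1 hD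
    exact ⟨_, step_band hb hb', by rw [kap_band]; omega, cnt_band hD hb hb'⟩
  · obtain ⟨l, hl, h1, h2, h4⟩ : ∃ l, (l = Y1 ∨ l = Z ∨ l = Y2) ∧ l ∉ Rm ∧
        (l = Y1 → Z ∉ Rm ∨ Y2 ∈ Rm) ∧ (l = Y2 → Z ∉ Rm ∨ Y1 ∈ Rm) := by
      unfold kap at hk hk3
      by_cases c1 : Y1 ∈ Rm
      · by_cases c2 : Z ∈ Rm
        · by_cases c3 : Y2 ∈ Rm
          · simp [c1, c2, c3] at hk3
          · exact ⟨Y2, by simp, c3, by simp, fun _ => Or.inr c1⟩
        · exact ⟨Z, by simp, c2, by simp, by simp⟩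
      · by_cases c3 : Y2 ∈ Rm
        · exact ⟨Y1, by simp, c1, fun _ => Or.inr c3, by simp⟩
        · simp only [c1, c3, if_false] at hk
          split_ifs at hk <;> omega
    have h5 : SM D.sys Rm (Rm ∪ {l}) := by
      refine SM.one l (Sys.mem_stk.2 ?_) h1 h2 h4
      rcases hl with h | h | h
      · exact Or.inl h
      · exact Or.inr (Or.inl h)
      · exact Or.inr (Or.inr (Or.inl h))
    obtain ⟨h6, h7⟩ := stack_step hD h5 (by omega) hn
    exact ⟨_, h5, by omega, h7⟩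

theorem exists_step1 {Rm : Finset Lb} (hk : kap Rm = 1) :
    ∃ Rm', SM D.sys Rm Rm' ∧ 2 ≤ kap Rm' ∧ D.cnt Rm' + 1 = D.cnt Rm := by
  by_cases hZ : Z ∈ Rm
  · have h1 : Y1 ∉ Rm ∧ Y2 ∉ Rm := by
      unfold kap at hk
      constructor
      · intro h
        simp only [h, hZ, if_true] at hk
        omega
      · intro h
        simp only [h, hZ, if_true] at hk
        omega
    refine ⟨_, SM.both h1.1 h1.2 hZ, ?_, ?_⟩
    · unfold kap
      simp [hZ]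
    · have e1 : D.SB (Rm ∪ {Y1, Y2}) = D.SB Rm := SB_special2 (by simp) (by simp)
      unfold cnt gr
      rw [e1]
      unfold kap
      simp [h1.1, h1.2, hZ]
  · refine ⟨Rm ∪ {Z}, SM.one Z (Sys.mem_stk.2 (Or.inr (Or.inl rfl))) hZ (by simp) (by simp), ?_, ?_⟩
    · unfold kap at hk ⊢
      simp [hZ] at hk ⊢
      split_ifs at hk ⊢ <;> omega
    · have e1 : D.SB (Rm ∪ {Z}) = D.SB Rm := SB_special (by simp)
      unfold cnt gr
      rw [e1]
      unfold kap at hk ⊢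
      by_cases c1 : Y1 ∈ Rm <;> by_cases c3 : Y2 ∈ Rm <;> simp [c1, c3, hZ] at hk ⊢

/-- the end of the game -/
theorem W_two (hD : D.Wf) {Rm : Finset Lb} (hk : 2 ≤ kap Rm) :
    W (SM D.sys) Rm ↔ D.cnt Rm % 2 = 1 := by
  induction Rm using (SM.wf D.sys).induction with
  | _ Rm ih =>
    have hn : ∀ g, ¬ D.Avail g Rm := by
      rintro g ⟨_, _, h, _⟩
      omega
    rw [W_iff (SM.wf D.sys)]
    constructor
    · rintro ⟨Rm', h1, h2⟩
      obtain ⟨h3, h4⟩ := stack_step hD h1 (by omega) hn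
      rw [ih Rm' h1 (by omega)] at h2
      omega
    · intro h
      obtain ⟨Rm', h1, h2, h3⟩ := exists_step2 hD hk (by omega)
      refine ⟨Rm', h1, ?_⟩
      rw [ih Rm' h1 h2]
      omega

theorem W_odd (hD : D.Wf) {Rm : Finset Lb} (hk : kap Rm = 1) (hc : D.cnt Rm % 2 = 1) :
    W (SM D.sys) Rm := by
  obtain ⟨Rm', h1, h2, h3⟩ := exists_step1 (D := D) hk
  rw [W_iff (SM.wf D.sys)]
  refine ⟨Rm', h1, ?_⟩
  rw [W_two hD h2]
  omega

theorem not_W_even (hD : D.Wf) {Rm : Finset Lb} (hk : kap Rm = 1) (hc : D.cnt Rm % 2 = 0)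
    (hn : ∀ g, ¬ D.Avail g Rm) : ¬ W (SM D.sys) Rm := by
  rw [W_iff (SM.wf D.sys)]
  rintro ⟨Rm', h1, h2⟩
  obtain ⟨h3, h4⟩ := stack_step hD h1 (by omega) hn
  apply h2
  by_cases h5 : kap Rm' = 1
  · exact W_odd hD h5 (by omega)
  · rw [W_two hD (by omega)]
    omega

theorem W_even (hD : D.Wf) {Rm : Finset Lb} (hk : kap Rm = 1) (hc : D.cnt Rm % 2 = 0) {g : ℕ}
    (hg : D.Avail g Rm) (hn : ∀ g', D.Avail g' Rm → g' = g) : W (SM D.sys) Rm := by
  rw [W_iff (SM.wf D.sys)]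
  refine ⟨_, step_kill hD hg, ?_⟩
  have e1 : D.SB (Rm ∪ {((4, g, 0) : Lb), (4, g, 1)}) = D.SB Rm := SB_special2 (by simp) (by simp)
  have e2 : kap (Rm ∪ {((4, g, 0) : Lb), (4, g, 1)}) = kap Rm := by
    unfold kap
    simp
  have e3 : gr (Rm ∪ {((4, g, 0) : Lb), (4, g, 1)}) = gr Rm := by
    unfold gr
    rw [e2]
    simp
  refine not_W_even hD (by rw [e2]; exact hk) ?_ ?_
  · unfold cnt at hc ⊢
    rw [e1, e3]
    exact hc
  · rintro g' ⟨h1, h2, h3, h4, h5⟩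
    rw [e1] at h4 h5
    have h6 : g' = g := hn g' ⟨h1, fun h => h2 (Finset.mem_union_left _ h), hk, h4, h5⟩
    subst h6
    exact h2 (by simp)

/-- the set of the labels of the bands -/
def RB (s : Finset (ℕ × ℕ)) : Finset Lb := s.image bd

theorem bd_inj {b b' : ℕ × ℕ} : bd b = bd b' ↔ b = b' := by
  constructor
  · intro h
    simp only [Prod.mk.injEq, true_and] at h
    exact Prod.ext h.1 h.2
  · rintro rfl; rfl

theorem mem_RB {s : Finset (ℕ × ℕ)} {b : ℕ × ℕ} : bd b ∈ RB s ↔ b ∈ s := by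
  unfold RB
  rw [Finset.mem_image]
  constructor
  · rintro ⟨b', h1, h2⟩
    rwa [← bd_inj.1 h2]
  · exact fun h => ⟨b, h, rfl⟩

theorem notMem_RB {s : Finset (ℕ × ℕ)} {l : Lb} (h : l.1 ≠ 2) : l ∉ RB s := by
  unfold RB
  rw [Finset.mem_image]
  rintro ⟨b', h1, h2⟩
  exact h (by rw [← h2])

theorem SB_RB {s : Finset (ℕ × ℕ)} (hs : ∀ b ∈ s, b ∈ D.bs) : D.SB (RB s) = s := by
  unfold SB
  ext b
  rw [Finset.mem_filter, mem_RB, List.mem_toFinset]
  exact ⟨fun h => h.2, fun h => ⟨hs b h, h⟩⟩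

theorem kap_RB (s : Finset (ℕ × ℕ)) : kap (RB s) = 0 := by
  unfold kap
  rw [if_neg (notMem_RB (by simp)), if_neg (notMem_RB (by simp)), if_neg (notMem_RB (by simp))]

theorem RB_insert (s : Finset (ℕ × ℕ)) (b : ℕ × ℕ) : RB s ∪ {bd b} = RB (insert b s) := by
  unfold RB
  rw [Finset.image_insert]
  ext x
  simp only [Finset.mem_union, Finset.mem_singleton, Finset.mem_insert]
  tauto

/-- the gadget would be available -/
def Av0 (D : Gd) (g : ℕ) (s : Finset (ℕ × ℕ)) : Prop :=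
  g < D.G ∧ s.card = D.T g ∧ (s.filter fun b => D.mark g b = true).card = D.M g

theorem avail_special {s : Finset (ℕ × ℕ)} (hs : ∀ b ∈ s, b ∈ D.bs) {l : Lb}
    (hl : l = Y1 ∨ l = Z ∨ l = Y2) (g : ℕ) : D.Avail g (RB s ∪ {l}) ↔ D.Av0 g s := by
  have h1 : l.1 ≠ 2 := by rcases hl with rfl | rfl | rfl <;> simp
  have h2 : kap (RB s ∪ {l}) = 1 := by
    have e1 : Y1 ∉ RB s := notMem_RB (by simp)
    have e2 : Z ∉ RB s := notMem_RB (by simp)
    have e3 : Y2 ∉ RB s := notMem_RB (by simp)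
    unfold kap
    rcases hl with rfl | rfl | rfl <;> simp [e1, e2, e3]
  have h3 : ((4, g, 0) : Lb) ∉ RB s ∪ {l} := by
    rw [Finset.mem_union, Finset.mem_singleton]
    rintro (h | h)
    · exact notMem_RB (by simp) h
    · rcases hl with rfl | rfl | rfl <;> simp at h
  unfold Avail Av0
  rw [SB_special h1, SB_RB hs]
  simp only [h2, h3, not_false_eq_true, true_and]

theorem cnt_special {s : Finset (ℕ × ℕ)} (hs : ∀ b ∈ s, b ∈ D.bs) {l : Lb}
    (hl : l = Y1 ∨ l = Z ∨ l = Y2) :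
    kap (RB s ∪ {l}) = 1 ∧ D.cnt (RB s ∪ {l}) = (D.bs.length - s.card) + (if l = Z then 1 else 2) := by
  have h1 : l.1 ≠ 2 := by rcases hl with rfl | rfl | rfl <;> simp
  have e1 : Y1 ∉ RB s := notMem_RB (by simp)
  have e2 : Z ∉ RB s := notMem_RB (by simp)
  have e3 : Y2 ∉ RB s := notMem_RB (by simp)
  have h2 : kap (RB s ∪ {l}) = 1 := by
    unfold kap
    rcases hl with rfl | rfl | rfl <;> simp [e1, e2, e3]
  refine ⟨h2, ?_⟩
  unfold cnt gr
  rw [SB_special h1, SB_RB hs, h2]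
  rcases hl with rfl | rfl | rfl <;> simp [e2]

/-- No gadget is available: the player to move wins. -/
theorem W_none (hD : D.Wf) {s : Finset (ℕ × ℕ)} (hs : ∀ b ∈ s, b ∈ D.bs)
    (h : ∀ g, ¬ D.Av0 g s) : W (SM D.sys) (RB s) := by
  have key : ∀ l, (l = Y1 ∨ l = Z ∨ l = Y2) → D.cnt (RB s ∪ {l}) % 2 = 0 →
      W (SM D.sys) (RB s) := by
    intro l hl hc
    obtain ⟨h1, _⟩ := cnt_special hs hl
    have hZ : ∀ l : Lb, l.1 ≠ 2 → l ∉ RB s := fun l => notMem_RB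
    rw [W_iff (SM.wf D.sys)]
    refine ⟨RB s ∪ {l}, SM.one l ?_ ?_ (fun _ => Or.inl (hZ _ (by simp)))
      (fun _ => Or.inl (hZ _ (by simp))), ?_⟩
    · rw [Sys.mem_stk]
      tauto
    · exact hZ _ (by rcases hl with rfl | rfl | rfl <;> simp)
    · refine not_W_even hD h1 hc fun g => ?_
      rw [avail_special hs hl]
      exact h g
  obtain ⟨_, h1⟩ := cnt_special hs (l := Y1) (Or.inl rfl)
  obtain ⟨_, h2⟩ := cnt_special hs (l := Z) (Or.inr (Or.inl rfl))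
  rw [if_neg (by simp)] at h1
  rw [if_pos rfl] at h2
  by_cases hp : (D.bs.length - s.card) % 2 = 0
  · exact key Y1 (Or.inl rfl) (by omega)
  · exact key Z (Or.inr (Or.inl rfl)) (by omega)

/-- Exactly one gadget is available: the player to move has to remove a band. -/
theorem W_one (hD : D.Wf) {s : Finset (ℕ × ℕ)} (hs : ∀ b ∈ s, b ∈ D.bs) {g : ℕ}
    (hg : D.Av0 g s) (hu : ∀ g', D.Av0 g' s → g' = g) :
    W (SM D.sys) (RB s) ↔ ∃ b ∈ D.bs, b ∉ s ∧ ¬ W (SM D.sys) (RB (insert b s)) := by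
  have hsp : ∀ l, (l = Y1 ∨ l = Z ∨ l = Y2) → W (SM D.sys) (RB s ∪ {l}) := by
    intro l hl
    obtain ⟨h1, _⟩ := cnt_special hs hl
    by_cases hc : D.cnt (RB s ∪ {l}) % 2 = 0
    · refine W_even hD h1 hc (g := g) ((avail_special hs hl g).2 hg) fun g' hg' => ?_
      exact hu g' ((avail_special hs hl g').1 hg')
    · exact W_odd hD h1 (by omega)
  rw [W_iff (SM.wf D.sys)]
  constructor
  · rintro ⟨Rm', h1, h2⟩
    rcases step_cases hD h1 with ⟨b, hb, h3, rfl⟩ | ⟨l, hl, h3, _, _, rfl⟩ | ⟨_, _, h3, _⟩ |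
      ⟨g', hg', _⟩
    · rw [RB_insert] at h2
      exact ⟨b, hb, fun h => h3 (mem_RB.2 h), h2⟩
    · exact absurd (hsp l hl) h2
    · exact absurd h3 (notMem_RB (by simp))
    · obtain ⟨_, _, h3, _⟩ := hg'
      rw [kap_RB] at h3
      omega
  · rintro ⟨b, hb, h3, h4⟩
    refine ⟨_, step_band hb (fun h => h3 (mem_RB.1 h)), ?_⟩
    rw [RB_insert]
    exact h4

end Gd

end Pool.Agent.W2helper56.CK
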