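import Pool.Agent.H623R2.PS.Defs

/-!
# Two-player Clickomania

Polynomial space, `PSPACE`-completeness and the encodings of structured data by bit strings (numbers
in binary) are defined in `Pool.Agent.H623R2.PS.Defs` and `Pool.Agent.NPC.Defs`.
-/

set_option autoImplicit false

namespace Pool.Agent.W2helper56.CK

open Pool.Agent.NPC

/-- A position: the columns from left to right, each of them the list of the colours of its blocks
from bottom to top. -/
abbrev Pos := List (List ℕ)

/-- The colour of the block in column `x.1` and row `x.2` (both counted from `0`, from the left and
from below), if there is such a block. -/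
def cell (P : Pos) (x : ℕ × ℕ) : Option ℕ := (P.getD x.1 [])[x.2]?

/-- Two cells share a vertical or horizontal side. -/
def Share (x y : ℕ × ℕ) : Prop :=
  (x.1 = y.1 ∧ (x.2 + 1 = y.2 ∨ y.2 + 1 = x.2)) ∨ (x.2 = y.2 ∧ (x.1 + 1 = y.1 ∨ y.1 + 1 = x.1))

/-- `x` and `y` are the places of two adjacent blocks of the same colour. -/
def Adj (P : Pos) (x y : ℕ × ℕ) : Prop := Share x y ∧ cell P x ≠ none ∧ cell P x = cell P y

/-- The group of the block at `x`: the places which can be reached from `x` by steps between
adjacent blocks of the same colour. -/
def Group (P : Pos) (x : ℕ × ℕ) : Set (ℕ × ℕ) := {y | Relation.ReflTransGen (Adj P) x y}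

open Classical in
/-- The position after the blocks at the places in `G` are deleted: in every column the remaining
blocks drop down, and then the empty columns are deleted. -/
noncomputable def remove (P : Pos) (G : Set (ℕ × ℕ)) : Pos :=
  (P.mapIdx fun i col => (col.zipIdx.filter fun cj => decide ((i, cj.2) ∉ G)).map Prod.fst).filter
    fun col => decide (col ≠ [])

/-- The moves: pick a block whose group has at least two blocks and delete the group. -/
def Move (P P' : Pos) : Prop :=
  ∃ x, cell P x ≠ none ∧ (Group P x).Nontrivial ∧ P' = remove P (Group P x)

/-- The player to move wins (normal play, a player with no legal move loses): there is a move to a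
position such that after every move of the opponent the player to move wins again. -/
inductive FirstWins : Pos → Prop
  | move {P P' : Pos} (h : Move P P') (h' : ∀ P'', Move P' P'' → FirstWins P'') : FirstWins P

/-- The position `P` is a grid of `m` columns with `n` blocks each, with colours less than `k`. -/
def IsGrid (k m n : ℕ) (P : Pos) : Prop :=
  0 < m ∧ 0 < n ∧ P.length = m ∧ ∀ col ∈ P, col.length = n ∧ ∀ c ∈ col, c < k

/-- TWO-PLAYER CLICKOMANIA. The input is `(k, m, n, P)`: the number of colours, the dimensions of
the grid, and the colours of all blocks. The question is whether the first player has a winning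
strategy. -/
def Clickomania (I : ℕ × ℕ × ℕ × Pos) : Prop :=
  IsGrid I.1 I.2.1 I.2.2.1 I.2.2.2 ∧ FirstWins I.2.2.2

end Pool.Agent.W2helper56.CK
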