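import Pool.Agent.W2helper56.CK.Mv

/-!
# The gadgets
-/

set_option autoImplicit false

namespace Pool.Agent.W2helper56.CK

open Relation Pool.Agent.H656R2.AK

/-- the data of a game on bands -/
structure Gd where
  /-- the bands -/
  bs : List (ℕ × ℕ)
  /-- the base -/
  B : ℕ
  /-- the number of gadgets -/
  G : ℕ
  /-- the numbers of bands -/
  T : ℕ → ℕ
  /-- the numbers of marked bands -/
  M : ℕ → ℕ
  /-- the marked bands -/
  mark : ℕ → ℕ × ℕ → Bool

namespace Gd

variable (D : Gd)

/-- the assumptions -/
structure Wf : Prop where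
  nodup : D.bs.Nodup
  len : D.bs.length < D.B
  pos : 0 < D.G
  T : ∀ g < D.G, D.T g < D.B
  M : ∀ g < D.G, D.M g < D.B

/-- additional thickness in the right columns -/
def e (g : ℕ) (l : Lb) : ℕ := if l.1 = 2 then D.B + (if D.mark g l.2 = true then 1 else 0) else D.B * D.B

/-- the basic thickness -/
def H : ℕ := 4 * (D.B * D.B) + D.B + 2

/-- the segments -/
def stk : List Lb := Y1 :: Z :: Y2 :: D.bs.map bd

/-- the sum of the additional thicknesses -/
def dl (g : ℕ) : ℕ := (D.stk.map (D.e g)).sum

/-- the threshold -/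
def thr (g : ℕ) : ℕ := D.B * D.B + (D.T g * D.B + D.M g)

/-- the position -/
def sys : Sys where
  nc := 2 * D.G
  bs := D.bs
  H := D.H
  ex c l := if c % 2 = 0 then 0 else D.e (c / 2) l
  zl c := if c % 2 = 0 then D.H else D.H - D.dl (c / 2)
  zt c := if c % 2 = 0 then D.dl (c / 2) - D.thr (c / 2) else 0

/-- the number of the removed special segments -/
def kap (Rm : Finset Lb) : ℕ :=
  (if Y1 ∈ Rm then 1 else 0) + (if Z ∈ Rm then 1 else 0) + (if Y2 ∈ Rm then 1 else 0)

/-- the removed bands -/
def SB (Rm : Finset Lb) : Finset (ℕ × ℕ) := D.bs.toFinset.filter fun b => bd b ∈ Rm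

/-- the gadget can be used -/
def Avail (g : ℕ) (Rm : Finset Lb) : Prop :=
  g < D.G ∧ (4, g, 0) ∉ Rm ∧ kap Rm = 1 ∧ (D.SB Rm).card = D.T g ∧
    ((D.SB Rm).filter fun b => D.mark g b = true).card = D.M g

variable {D}

theorem stk_eq : D.sys.stk = D.stk := rfl

theorem sum_map (B : ℕ) (m : ℕ × ℕ → Bool) (l : List (ℕ × ℕ)) :
    (l.map fun b => B + (if m b = true then 1 else 0)).sum = l.length * B + (l.filter m).length := by
  induction l with
  | nil => simp
  | cons a l ih =>
    rw [List.map_cons, List.sum_cons, ih, List.length_cons, List.filter_cons, Nat.succ_mul]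
    split_ifs
    · rw [List.length_cons]; omega
    · omega

theorem dl_eq (g : ℕ) : D.dl g = 3 * (D.B * D.B) +
    (D.bs.length * D.B + (D.bs.filter (D.mark g)).length) := by
  unfold dl stk
  simp only [List.map_cons, List.sum_cons, List.map_map]
  have h1 : (D.bs.map (D.e g ∘ bd)) = D.bs.map fun b => D.B + (if D.mark g b = true then 1 else 0) := by
    refine List.map_congr_left fun b _ => ?_
    simp [e]
  rw [h1, sum_map]
  simp only [e]
  simp only [OfNat.zero_ne_ofNat, if_false, OfNat.one_ne_ofNat]
  ring

theorem dl_le (hD : D.Wf) (g : ℕ) : D.dl g + 2 ≤ D.H := by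
  rw [dl_eq]
  unfold H
  have h1 := hD.len
  have h2 : D.bs.length * D.B ≤ D.B * D.B := Nat.mul_le_mul_right _ h1.le
  have h3 : (D.bs.filter (D.mark g)).length ≤ D.bs.length := List.length_filter_le _ _
  omega

theorem thr_le (hD : D.Wf) {g : ℕ} (hg : g < D.G) : D.thr g ≤ D.dl g := by
  rw [dl_eq]
  unfold thr
  have h1 := hD.T g hg
  have h2 := hD.M g hg
  have h3 : D.T g * D.B ≤ D.B * D.B := Nat.mul_le_mul_right _ h1.le
  have h4 : D.B ≤ D.B * D.B := Nat.le_mul_self _
  omega

theorem sys_wf (hD : D.Wf) : D.sys.Wf where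
  nodup := hD.nodup
  nc := by have := hD.pos; simp only [sys]; omega
  even := by simp only [sys]; omega
  ex c := by
    change (D.stk.map _).sum + 2 ≤ D.H
    by_cases hc : c % 2 = 0
    · simp only [sys, hc, if_true]
      have h1 : (D.stk.map fun _ => 0).sum = 0 := by
        rw [List.map_const', List.sum_replicate]
        simp
      rw [h1]
      unfold H
      omega
    · simp only [sys, hc, if_false]
      exact dl_le hD _
  zl c := by
    have := dl_le hD (c / 2)
    have : 2 ≤ D.H := by omega
    simp only [sys]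
    split_ifs <;> omega
  zt c := by
    have := dl_le hD (c / 2)
    simp only [sys]
    split_ifs <;> omega

theorem filter_split {α : Type} (f : α → ℕ) (p : α → Bool) (l : List α) :
    ((l.filter fun x => !p x).map f).sum + ((l.filter p).map f).sum = (l.map f).sum := by
  induction l with
  | nil => simp
  | cons a l ih =>
    rw [List.filter_cons, List.filter_cons, List.map_cons, List.sum_cons]
    cases h : p a
    · simp only [Bool.not_false, if_true, List.map_cons, List.sum_cons, Bool.false_eq_true,
        if_false]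
      omega
    · simp only [Bool.not_true, if_true, List.map_cons, List.sum_cons, Bool.false_eq_true,
        if_false]
      omega

theorem shift_eq (hD : D.Wf) (g : ℕ) (Rm : Finset Lb) :
    ((D.stk.filter fun l => decide (l ∈ Rm)).map (D.e g)).sum =
      kap Rm * (D.B * D.B) + ((D.SB Rm).card * D.B +
        ((D.SB Rm).filter fun b => D.mark g b = true).card) := by
  have h1 : ((D.bs.map bd).filter fun l => decide (l ∈ Rm)).map (D.e g) =
      (D.bs.filter fun b => decide (bd b ∈ Rm)).map fun b =>
        D.B + (if D.mark g b = true then 1 else 0) := by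
    rw [List.filter_map, List.map_map]
    refine List.map_congr_left fun b _ => ?_
    simp [e]
  have h2 : (D.SB Rm).card = (D.bs.filter fun b => decide (bd b ∈ Rm)).length := by
    rw [← List.toFinset_card_of_nodup (hD.nodup.filter _)]
    congr 1
    unfold SB
    ext b
    simp
  have h3 : ((D.SB Rm).filter fun b => D.mark g b = true).card =
      ((D.bs.filter fun b => decide (bd b ∈ Rm)).filter (D.mark g)).length := by
    rw [← List.toFinset_card_of_nodup ((hD.nodup.filter _).filter _)]
    congr 1
    unfold SB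
    ext b
    simp only [Finset.mem_filter, List.mem_toFinset, List.mem_filter, decide_eq_true_eq]
  have h4 : (((D.bs.map bd).filter fun l => decide (l ∈ Rm)).map (D.e g)).sum =
      (D.SB Rm).card * D.B + ((D.SB Rm).filter fun b => D.mark g b = true).card := by
    rw [h1, sum_map, h2, h3]
  unfold stk kap
  rw [List.filter_cons, List.filter_cons, List.filter_cons]
  have e1 : D.e g Y1 = D.B * D.B := by simp [e]
  have e2 : D.e g Z = D.B * D.B := by simp [e]
  have e3 : D.e g Y2 = D.B * D.B := by simp [e]
  by_cases c1 : Y1 ∈ Rm <;> by_cases c2 : Z ∈ Rm <;> by_cases c3 : Y2 ∈ Rm <;>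
    simp only [c1, c2, c3, decide_true, decide_false, if_true, if_false, Bool.false_eq_true,
      List.map_cons, List.sum_cons, h4, e1, e2, e3] <;> ring

theorem digits {B a b a' b' : ℕ} (hb : b < B) (hb' : b' < B) (h : a * B + b = a' * B + b') :
    a = a' ∧ b = b' := by
  have h1 : (a * B + b) / B = a := by
    rw [Nat.add_comm, Nat.add_mul_div_right _ _ (by omega), Nat.div_eq_of_lt hb, Nat.zero_add]
  have h2 : (a' * B + b') / B = a' := by
    rw [Nat.add_comm, Nat.add_mul_div_right _ _ (by omega), Nat.div_eq_of_lt hb', Nat.zero_add]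
  have h3 : a = a' := by rw [← h1, ← h2, h]
  subst h3
  exact ⟨rfl, by omega⟩

theorem card_SB_le (hD : D.Wf) (Rm : Finset Lb) : (D.SB Rm).card ≤ D.bs.length := by
  unfold SB
  refine (Finset.card_filter_le _ _).trans ?_
  rw [List.toFinset_card_of_nodup hD.nodup]

theorem kill_iff (hD : D.Wf) {g : ℕ} (hg : g < D.G) (Rm : Finset Lb) :
    D.sys.tot Rm (2 * g) + D.sys.zt (2 * g) = D.sys.tot Rm (2 * g + 1) + D.sys.zt (2 * g + 1) ↔
      kap Rm = 1 ∧ (D.SB Rm).card = D.T g ∧
        ((D.SB Rm).filter fun b => D.mark g b = true).card = D.M g := by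
  unfold Sys.tot
  rw [sum_add, sum_add]
  have e0 : 2 * g / 2 = g := by omega
  have e1 : (2 * g + 1) / 2 = g := by omega
  have e2 : 2 * g % 2 = 0 := by omega
  have e3 : (2 * g + 1) % 2 ≠ 0 := by omega
  have h1 : ((D.sys.ls Rm).map (D.sys.ex (2 * g))).sum = 0 := by
    have : D.sys.ex (2 * g) = fun _ => 0 := by
      funext l
      simp only [sys, e2, if_true]
    rw [this, List.map_const', List.sum_replicate]
    simp
  have h2 : D.sys.ex (2 * g + 1) = D.e g := by
    funext l
    simp only [sys, e3, if_false, e1]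
  have h3 : D.sys.zt (2 * g) = D.dl g - D.thr g := by
    simp only [sys, e2, if_true, e0]
  have h4 : D.sys.zt (2 * g + 1) = 0 := by
    simp only [sys, e3, if_false]
  rw [h1, h2, h3, h4]
  have h5 : ((D.sys.ls Rm).map (D.e g)).sum +
      ((D.stk.filter fun l => decide (l ∈ Rm)).map (D.e g)).sum = D.dl g := by
    have := filter_split (D.e g) (fun l => decide (l ∈ Rm)) D.stk
    unfold dl
    rw [← this]
    congr 2
    unfold Sys.ls
    rw [stk_eq]
    congr 1
    refine List.filter_congr fun l _ => ?_
    exact (decide_not (p := l ∈ Rm))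
  rw [shift_eq hD] at h5
  have h6 := thr_le hD hg
  have h7 := hD.T g hg
  have h8 := hD.M g hg
  have h9 := card_SB_le hD Rm
  have h10 : ((D.SB Rm).filter fun b => D.mark g b = true).card ≤ (D.SB Rm).card :=
    Finset.card_filter_le _ _
  have h11 := hD.len
  constructor
  · intro h
    have h12 : kap Rm * (D.B * D.B) + ((D.SB Rm).card * D.B +
        ((D.SB Rm).filter fun b => D.mark g b = true).card) = D.thr g := by omega
    have h13 : (kap Rm * D.B + (D.SB Rm).card) * D.B +
        ((D.SB Rm).filter fun b => D.mark g b = true).card = (1 * D.B + D.T g) * D.B + D.M g := by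
      unfold thr at h12
      rw [Nat.add_mul, Nat.add_mul, Nat.mul_assoc, one_mul]
      omega
    obtain ⟨h14, h15⟩ := digits (by omega) h8 h13
    obtain ⟨h16, h17⟩ := digits (by omega) h7 h14
    exact ⟨h16, h17, h15⟩
  · rintro ⟨h12, h13, h14⟩
    rw [h12, h13, h14, one_mul] at h5
    unfold thr at h6 ⊢
    omega

end Gd

end Pool.Agent.W2helper56.CK
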