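import Pool.Agent.W2helper56.CK.Seg

/-!
# The moves in terms of the removed labels
-/

set_option autoImplicit false

namespace Pool.Agent.W2helper56.CK

open Relation Pool.Agent.H656R2.AK

theorem firstWins_iff (P : Pos) : FirstWins P ↔ W Move P := by
  constructor
  · intro h
    induction h with
    | move h h' ih => exact W.mk _ _ h fun c hc => ih c hc
  · intro h
    induction h with
    | mk a b h hb ih => exact FirstWins.move h fun c hc => ih c hc

/-- the moves on the sets of removed labels -/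
inductive SM (S : Sys) (Rm : Finset Lb) : Finset Lb → Prop
  | one (l : Lb) (h : l ∈ S.stk) (h' : l ∉ Rm) (h2 : l = Y1 → Z ∉ Rm ∨ Y2 ∈ Rm)
      (h3 : l = Y2 → Z ∉ Rm ∨ Y1 ∈ Rm) : SM S Rm (Rm ∪ {l})
  | both (h : Y1 ∉ Rm) (h' : Y2 ∉ Rm) (h2 : Z ∈ Rm) : SM S Rm (Rm ∪ {Y1, Y2})
  | kill (g : ℕ) (hg : 2 * g < S.nc) (h : (4, g, 0) ∉ Rm)
      (h' : S.tot Rm (2 * g) + S.zt (2 * g) = S.tot Rm (2 * g + 1) + S.zt (2 * g + 1)) :
      SM S Rm (Rm ∪ {(4, g, 0), (4, g, 1)})

/-- the invariant -/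
structure Inv (Rm : Finset Lb) : Prop where
  k3 : ∀ l ∈ Rm, l.1 ≠ 3
  k4 : ∀ g, ((4, g, 0) : Lb) ∈ Rm ↔ ((4, g, 1) : Lb) ∈ Rm

namespace Sys

variable {S : Sys} {Rm : Finset Lb}

theorem SM.inv (h : Inv Rm) {Rm' : Finset Lb} (hm : SM S Rm Rm') : Inv Rm' := by
  cases hm with
  | one l hl h' h2 h3 =>
    have := kind_stk hl
    refine ⟨?_, ?_⟩
    · intro l' hl'
      rw [Finset.mem_union, Finset.mem_singleton] at hl'
      rcases hl' with hl' | rfl
      · exact h.k3 l' hl'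
      · omega
    · intro g
      rw [Finset.mem_union, Finset.mem_union, Finset.mem_singleton, Finset.mem_singleton, h.k4]
      have e1 : ¬ ((4, g, 0) : Lb) = l := fun e => by rw [← e] at this; simp at this
      have e2 : ¬ ((4, g, 1) : Lb) = l := fun e => by rw [← e] at this; simp at this
      simp only [e1, e2]
  | both h1 h2 h3 =>
    refine ⟨?_, ?_⟩
    · intro l' hl'
      rw [Finset.mem_union, Finset.mem_insert, Finset.mem_singleton] at hl'
      rcases hl' with hl' | rfl | rfl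
      · exact h.k3 l' hl'
      · simp
      · simp
    · intro g
      simp only [Finset.mem_union, Finset.mem_insert, Finset.mem_singleton, h.k4]
      simp
  | kill g hg h1 h2 =>
    refine ⟨?_, ?_⟩
    · intro l' hl'
      rw [Finset.mem_union, Finset.mem_insert, Finset.mem_singleton] at hl'
      rcases hl' with hl' | rfl | rfl
      · exact h.k3 l' hl'
      · simp
      · simp
    · intro g'
      simp only [Finset.mem_union, Finset.mem_insert, Finset.mem_singleton, h.k4]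
      simp

theorem zone_get {c i : ℕ} (hi : i < S.zl c) :
    (S.zone c)[i]? = some (if i = S.zt c then (4, c / 2, c % 2) else (3, c, i)) := by
  unfold zone
  rw [List.getElem?_map, List.getElem?_range hi]
  simp

theorem col_ne (hS : S.Wf) (h : Inv Rm) (c : ℕ) : S.col Rm c ≠ [] := by
  have h1 := hS.zl c
  obtain ⟨i, hi, hi'⟩ : ∃ i, i < S.zl c ∧ i ≠ S.zt c := by
    by_cases h2 : S.zt c = 0
    · exact ⟨1, by omega, by omega⟩
    · exact ⟨0, by omega, by omega⟩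
  have h2 := zone_get hi
  rw [if_neg hi'] at h2
  have h3 : ((3, c, i) : Lb) ∈ S.zs Rm c := by
    unfold zs
    rw [List.mem_filter]
    refine ⟨List.mem_of_getElem? h2, ?_⟩
    simp only [decide_not, Bool.not_eq_true', decide_eq_false_iff_not]
    intro h4
    exact h.k3 _ h4 rfl
  intro h4
  unfold col at h4
  rw [List.append_eq_nil_iff] at h4
  rw [h4.2] at h3
  simp at h3

theorem zs_eq (h : Inv Rm) {c : ℕ} (hc : ((4, c / 2, c % 2) : Lb) ∉ Rm) : S.zs Rm c = S.zone c := by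
  unfold zs
  rw [List.filter_eq_self]
  intro l hl
  rcases kind_zone hl with rfl | ⟨i, rfl⟩
  · simpa using hc
  · have : ((3, c, i) : Lb) ∉ Rm := fun h1 => h.k3 _ h1 rfl
    simpa using this

/-- the places of the blocks of the upper part -/
theorem zone_unique {l : Lb} (hl : 3 ≤ l.1) {x y : ℕ × ℕ} (hx : S.lab Rm x = some l)
    (hy : S.lab Rm y = some l) : x = y := by
  obtain ⟨c, r⟩ := x
  obtain ⟨c', r'⟩ := y
  obtain ⟨h1, h2, h3⟩ := lab_zone_inv hl hx
  obtain ⟨h1', h2', h3'⟩ := lab_zone_inv hl hy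
  have hcc : c = c' := by
    rcases (kind_zs (List.mem_of_getElem? h3)).2 with h4 | ⟨i, h4⟩
    · rcases (kind_zs (List.mem_of_getElem? h3')).2 with h5 | ⟨i', h5⟩
      · rw [h4] at h5
        simp only [Prod.mk.injEq, true_and] at h5
        omega
      · rw [h4] at h5; simp at h5
    · rcases (kind_zs (List.mem_of_getElem? h3')).2 with h5 | ⟨i', h5⟩
      · rw [h4] at h5; simp at h5
      · rw [h4] at h5
        simp only [Prod.mk.injEq, true_and] at h5
        exact h5.1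
  subst hcc
  have hnd : (S.zs Rm c).Nodup := (zone_nodup c).filter _
  obtain ⟨h5, h6⟩ := List.getElem?_eq_some_iff.1 h3
  obtain ⟨h5', h6'⟩ := List.getElem?_eq_some_iff.1 h3'
  have := (hnd.getElem_inj_iff).1 (h6.trans h6'.symm)
  rw [Prod.mk.injEq]
  exact ⟨rfl, by omega⟩

theorem lab4 (h : Inv Rm) {c r a b : ℕ} (hx : S.lab Rm (c, r) = some (4, a, b)) :
    c = 2 * a + b ∧ b < 2 ∧ c < S.nc ∧ ((4, a, b) : Lb) ∉ Rm ∧ r = S.tot Rm c + S.zt c := by
  obtain ⟨h1, h2, h3⟩ := lab_zone_inv (by simp) hx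
  obtain ⟨h4, h5 | ⟨i, h5⟩⟩ := kind_zs (List.mem_of_getElem? h3)
  · have h6 : S.zs Rm c = S.zone c := zs_eq h (by rw [← h5]; exact h4)
    rw [h6] at h3
    have h7 : r - S.tot Rm c < S.zl c := by
      have := (List.getElem?_eq_some_iff.1 h3).1
      simpa [zone] using this
    rw [zone_get h7] at h3
    simp only [Prod.mk.injEq, true_and] at h5
    split_ifs at h3 with h8
    · exact ⟨by omega, by omega, h1, h4, by omega⟩
    · simp at h3
  · simp at h5

theorem lab4_mk (hS : S.Wf) (h : Inv Rm) {c : ℕ} (hc : c < S.nc)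
    (h4 : ((4, c / 2, c % 2) : Lb) ∉ Rm) :
    S.lab Rm (c, S.tot Rm c + S.zt c) = some (4, c / 2, c % 2) := by
  rw [lab_zone hc, zs_eq h h4, zone_get (hS.zt c), if_pos rfl]

theorem kind0 {l : Lb} (hl : l.1 = 0) {x : ℕ × ℕ} (hx : S.lab Rm x = some l) :
    l ∉ Rm ∧ (l = Y1 ∨ l = Y2) := by
  obtain ⟨c, r⟩ := x
  obtain ⟨h1, j, h2, _⟩ := (lab_stk_iff (by omega)).1 hx
  obtain ⟨h3, h4⟩ := mem_ls.1 (List.mem_of_getElem? h2)
  refine ⟨h4, ?_⟩
  rw [mem_stk] at h3
  rcases h3 with rfl | rfl | rfl | ⟨b, _, rfl⟩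
  · exact Or.inl rfl
  · simp at hl
  · exact Or.inr rfl
  · simp at hl

theorem no_touch (hS : S.Wf) (hZ : Z ∉ Rm) {x y : ℕ × ℕ} (hx : S.lab Rm x = some Y1)
    (hy : S.lab Rm y = some Y2) : ¬ Share x y := by
  obtain ⟨c, r⟩ := x
  obtain ⟨c', r'⟩ := y
  obtain ⟨h1, j, h2, h3, h4⟩ := (lab_stk_iff (by simp)).1 hx
  obtain ⟨h1', j', h2', h3', h4'⟩ := (lab_stk_iff (by simp)).1 hy
  have hY1 := (mem_ls.1 (List.mem_of_getElem? h2)).2
  have hY2 := (mem_ls.1 (List.mem_of_getElem? h2')).2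
  have hls : S.ls Rm = Y1 :: Z :: Y2 :: (S.bs.map bd).filter fun l => decide (l ∉ Rm) := by
    unfold ls stk
    rw [List.filter_cons, List.filter_cons, List.filter_cons]
    simp [hY1, hY2, hZ]
  have hnd : (S.ls Rm).Nodup := (stk_nodup hS).filter _
  have hj : j = 0 := by
    obtain ⟨h5, h6⟩ := List.getElem?_eq_some_iff.1 h2
    have h7 : (S.ls Rm)[0]? = some Y1 := by rw [hls]; rfl
    obtain ⟨h5', h6'⟩ := List.getElem?_eq_some_iff.1 h7
    exact (hnd.getElem_inj_iff).1 (h6.trans h6'.symm)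
  have hj' : j' = 2 := by
    obtain ⟨h5, h6⟩ := List.getElem?_eq_some_iff.1 h2'
    have h7 : (S.ls Rm)[2]? = some Y2 := by rw [hls]; rfl
    obtain ⟨h5', h6'⟩ := List.getElem?_eq_some_iff.1 h7
    exact (hnd.getElem_inj_iff).1 (h6.trans h6'.symm)
  subst hj hj'
  have h5 := (row_bounds hS h2 h3 h4).2
  have h6 := (row_bounds hS h2' h3' h4').1
  intro h7
  unfold Share at h7
  simp only at h7
  omega

/-- the group of a single segment -/
theorem group_one (hS : S.Wf) {l : Lb} (hl : l ∈ S.stk)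
    (h2 : l = Y1 → Z ∉ Rm ∨ Y2 ∈ Rm) (h3 : l = Y2 → Z ∉ Rm ∨ Y1 ∈ Rm) {x : ℕ × ℕ}
    (hx : S.lab Rm x = some l) : Group (S.pos Rm) x = S.GS Rm {l} := by
  refine group_eq ⟨l, by simp, hx⟩ ?_ ?_
  · rintro u ⟨l1, hl1, hu⟩ v hv
    rw [Finset.mem_singleton] at hl1
    subst hl1
    rw [adj_iff] at hv
    obtain ⟨hsh, l', l'', h4, h5, h6⟩ := hv
    rw [hu, Option.some.injEq] at h4
    subst h4
    rw [clr_eq] at h6
    obtain ⟨h7, h8, h9⟩ := h6
    suffices h : l'' = l1 from ⟨l1, by simp, by rw [h5, h]⟩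
    by_cases h0 : l1.1 = 0
    · obtain ⟨h10, h11⟩ := kind0 h0 hx
      obtain ⟨h12, h13⟩ := kind0 (by omega) h5
      rcases h11 with rfl | rfl
      · rcases h13 with rfl | rfl
        · rfl
        · exfalso
          rcases h2 rfl with h14 | h14
          · exact no_touch hS h14 hu h5 hsh
          · exact h12 h14
      · rcases h13 with rfl | rfl
        · exfalso
          rcases h3 rfl with h14 | h14
          · exact no_touch hS h14 h5 hu hsh.symm
          · exact h12 h14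
        · rfl
    · have := kind_stk hl
      obtain ⟨a, b, c⟩ := l1
      obtain ⟨a', b', c'⟩ := l''
      simp only [Prod.mk.injEq] at *
      omega
  · rintro u ⟨l1, hl1, hu⟩
    rw [Finset.mem_singleton] at hl1
    subst hl1
    exact conn_seg hS (kind_stk hl) hx hu

/-- the group of the two segments of the same colour when they touch -/
theorem group_both (hS : S.Wf) (h1 : Y1 ∉ Rm) (h2 : Y2 ∉ Rm) (hZ : Z ∈ Rm) {x : ℕ × ℕ} {l : Lb}
    (hl : l = Y1 ∨ l = Y2) (hx : S.lab Rm x = some l) :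
    Group (S.pos Rm) x = S.GS Rm {Y1, Y2} := by
  refine group_eq ⟨l, by simpa using hl, hx⟩ ?_ ?_
  · rintro u ⟨l1, hl1, hu⟩ v hv
    rw [adj_iff] at hv
    obtain ⟨hsh, l', l'', h4, h5, h6⟩ := hv
    rw [hu, Option.some.injEq] at h4
    subst h4
    rw [clr_eq] at h6
    obtain ⟨h7, h8, h9⟩ := h6
    have h10 : l1.1 = 0 := by
      rw [Finset.mem_insert, Finset.mem_singleton] at hl1
      rcases hl1 with rfl | rfl <;> rfl
    obtain ⟨_, h11⟩ := kind0 (by omega) h5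
    exact ⟨l'', by simpa using h11, h5⟩
  · have hls : S.ls Rm = Y1 :: Y2 :: (S.bs.map bd).filter fun l => decide (l ∉ Rm) := by
      unfold ls stk
      rw [List.filter_cons, List.filter_cons, List.filter_cons]
      simp [h1, h2, hZ]
    have e0 : (S.ls Rm)[0]? = some Y1 := by rw [hls]; rfl
    have e1 : (S.ls Rm)[1]? = some Y2 := by rw [hls]; rfl
    have f0 : S.sp Rm 0 0 = 0 := by simp [sp]
    have f1 := sp_succ (S := S) (Rm := Rm) 0 e0
    rw [Nat.zero_add] at f1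
    have hH := hS.ex 0
    have g0 : S.lab Rm (0, S.sp Rm 0 1 - 1) = some Y1 := lab_stk hS.nc e0 (by omega) (by omega)
    have g1 : S.lab Rm (0, S.sp Rm 0 1) = some Y2 := lab_stk hS.nc e1 le_rfl (by omega)
    have hadj : Adj (S.pos Rm) (0, S.sp Rm 0 1 - 1) (0, S.sp Rm 0 1) := by
      rw [adj_iff]
      refine ⟨Or.inl ⟨rfl, Or.inl (by simp only; omega)⟩, _, _, g0, g1, ?_⟩
      rw [clr_eq]
      simp
    have key : ∀ u l', (l' = Y1 ∨ l' = Y2) → S.lab Rm u = some l' →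
        Conn (S.pos Rm) (0, S.sp Rm 0 1) u := by
      rintro u l' (rfl | rfl) hu
      · exact (ReflTransGen.single hadj.symm).trans (conn_seg hS (by simp) g0 hu)
      · exact conn_seg hS (by simp) g1 hu
    rintro u ⟨l1, hl1, hu⟩
    exact (key x l hl hx).symm.trans (key u l1 (by simpa using hl1) hu)

/-- the group of the two special blocks -/
theorem group_kill (hS : S.Wf) (h : Inv Rm) {g : ℕ} (hg : 2 * g < S.nc)
    (h4 : ((4, g, 0) : Lb) ∉ Rm)
    (h' : S.tot Rm (2 * g) + S.zt (2 * g) = S.tot Rm (2 * g + 1) + S.zt (2 * g + 1)) {x : ℕ × ℕ}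
    {b : ℕ} (hx : S.lab Rm x = some (4, g, b)) :
    Group (S.pos Rm) x = S.GS Rm {(4, g, 0), (4, g, 1)} := by
  have h4' : ((4, g, 1) : Lb) ∉ Rm := by rwa [← h.k4]
  have hev := hS.even
  have e0 : 2 * g / 2 = g := by omega
  have e1 : (2 * g + 1) / 2 = g := by omega
  have e2 : 2 * g % 2 = 0 := by omega
  have e3 : (2 * g + 1) % 2 = 1 := by omega
  have g0 : S.lab Rm (2 * g, S.tot Rm (2 * g) + S.zt (2 * g)) = some (4, g, 0) := by
    have := lab4_mk hS h hg (by rw [e0, e2]; exact h4)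
    rwa [e0, e2] at this
  have g1 : S.lab Rm (2 * g + 1, S.tot Rm (2 * g + 1) + S.zt (2 * g + 1)) = some (4, g, 1) := by
    have := lab4_mk hS h (c := 2 * g + 1) (by omega) (by rw [e1, e3]; exact h4')
    rwa [e1, e3] at this
  have hadj : Adj (S.pos Rm) (2 * g, S.tot Rm (2 * g) + S.zt (2 * g))
      (2 * g + 1, S.tot Rm (2 * g + 1) + S.zt (2 * g + 1)) := by
    rw [adj_iff]
    refine ⟨Or.inr ⟨h', Or.inl rfl⟩, _, _, g0, g1, ?_⟩
    rw [clr_eq]
    simp
  have hb : ∀ {u : ℕ × ℕ} {b : ℕ}, S.lab Rm u = some (4, g, b) → b = 0 ∨ b = 1 := by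
    intro u b hu
    obtain ⟨c, r⟩ := u
    have := lab4 h hu
    omega
  have key : ∀ u l', (l' = (4, g, 0) ∨ l' = (4, g, 1)) → S.lab Rm u = some l' →
      Conn (S.pos Rm) (2 * g, S.tot Rm (2 * g) + S.zt (2 * g)) u := by
    rintro u l' (rfl | rfl) hu
    · rw [zone_unique (by simp) hu g0]
    · rw [zone_unique (by simp) hu g1]
      exact .single hadj
  refine group_eq ⟨(4, g, b), ?_, hx⟩ ?_ ?_
  · rcases hb hx with rfl | rfl <;> simp
  · rintro u ⟨l1, hl1, hu⟩ v hv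
    rw [adj_iff] at hv
    obtain ⟨hsh, l', l'', h4, h5, h6⟩ := hv
    rw [hu, Option.some.injEq] at h4
    subst h4
    rw [clr_eq] at h6
    obtain ⟨h7, h8, h9⟩ := h6
    obtain ⟨a', b', c'⟩ := l''
    have h10 : a' = 4 ∧ b' = g := by
      rw [Finset.mem_insert, Finset.mem_singleton] at hl1
      rcases hl1 with rfl | rfl
      · exact ⟨h7.symm, h8.symm⟩
      · exact ⟨h7.symm, h8.symm⟩
    obtain ⟨rfl, rfl⟩ := h10
    refine ⟨(4, b', c'), ?_, h5⟩
    rcases hb h5 with rfl | rfl <;> simp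
  · rintro u ⟨l1, hl1, hu⟩
    refine (key x (4, g, b) ?_ hx).symm.trans (key u l1 (by simpa using hl1) hu)
    rcases hb hx with rfl | rfl <;> simp

theorem move_mk (hS : S.Wf) {X : Finset Lb} (h' : Inv (Rm ∪ X)) {x y : ℕ × ℕ}
    (hxy : Adj (S.pos Rm) x y) (hG : Group (S.pos Rm) x = S.GS Rm X) :
    Move (S.pos Rm) (S.pos (Rm ∪ X)) := by
  refine ⟨x, hxy.2.1, ⟨x, .refl, y, .single hxy, hxy.1.ne⟩, ?_⟩
  rw [hG, remove_eq fun c _ => col_ne hS h' c]

theorem move_of_SM (hS : S.Wf) (h : Inv Rm) {Rm' : Finset Lb} (hm : SM S Rm Rm') :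
    Move (S.pos Rm) (S.pos Rm') := by
  have h' := SM.inv h hm
  cases hm with
  | one l hl h1 h2 h3 =>
    obtain ⟨x, y, hxy, hx, _⟩ := exists_adj (Rm := Rm) hS (mem_ls.2 ⟨hl, h1⟩)
    exact move_mk hS h' hxy (group_one hS hl h2 h3 hx)
  | both h1 h2 h3 =>
    obtain ⟨x, y, hxy, hx, _⟩ := exists_adj (Rm := Rm) (l := Y1) hS
      (mem_ls.2 ⟨mem_stk.2 (Or.inl rfl), h1⟩)
    exact move_mk hS h' hxy (group_both hS h1 h2 h3 (Or.inl rfl) hx)
  | kill g hg h4 he =>
    have h4' : ((4, g, 1) : Lb) ∉ Rm := by rwa [← h.k4]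
    have hev := hS.even
    have e0 : 2 * g / 2 = g := by omega
    have e1 : (2 * g + 1) / 2 = g := by omega
    have e2 : 2 * g % 2 = 0 := by omega
    have e3 : (2 * g + 1) % 2 = 1 := by omega
    have g0 : S.lab Rm (2 * g, S.tot Rm (2 * g) + S.zt (2 * g)) = some (4, g, 0) := by
      have := lab4_mk hS h hg (by rw [e0, e2]; exact h4)
      rwa [e0, e2] at this
    have g1 : S.lab Rm (2 * g + 1, S.tot Rm (2 * g + 1) + S.zt (2 * g + 1)) = some (4, g, 1) := by
      have := lab4_mk hS h (c := 2 * g + 1) (by omega) (by rw [e1, e3]; exact h4')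
      rwa [e1, e3] at this
    have hadj : Adj (S.pos Rm) (2 * g, S.tot Rm (2 * g) + S.zt (2 * g))
        (2 * g + 1, S.tot Rm (2 * g + 1) + S.zt (2 * g + 1)) := by
      rw [adj_iff]
      refine ⟨Or.inr ⟨he, Or.inl rfl⟩, _, _, g0, g1, ?_⟩
      rw [clr_eq]
      simp
    exact move_mk hS h' hadj (group_kill hS h hg h4 he g0)

theorem SM_of_move (hS : S.Wf) (h : Inv Rm) {P : Pos} (hm : Move (S.pos Rm) P) :
    ∃ Rm', SM S Rm Rm' ∧ P = S.pos Rm' := by
  obtain ⟨x, hx, hnt, rfl⟩ := hm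
  obtain ⟨y, hxy⟩ : ∃ y, Adj (S.pos Rm) x y := by
    obtain ⟨z, hz, hzx⟩ := hnt.exists_ne x
    rcases ReflTransGen.cases_head hz with h1 | ⟨y, hy, _⟩
    · exact absurd h1.symm hzx
    · exact ⟨y, hy⟩
  have hxy' := hxy
  rw [adj_iff] at hxy'
  obtain ⟨hsh, l, l', h1, h2, h3⟩ := hxy'
  suffices hs : ∃ X : Finset Lb, SM S Rm (Rm ∪ X) ∧ Group (S.pos Rm) x = S.GS Rm X by
    obtain ⟨X, hX, hG⟩ := hs
    refine ⟨_, hX, ?_⟩
    rw [hG, remove_eq fun c _ => col_ne hS (SM.inv h hX) c]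
  by_cases hk : l.1 ≤ 2
  · obtain ⟨c, r⟩ := x
    obtain ⟨_, j, h4, _⟩ := (lab_stk_iff hk).1 h1
    obtain ⟨h5, h6⟩ := mem_ls.1 (List.mem_of_getElem? h4)
    by_cases hb : (l = Y1 ∨ l = Y2) ∧ Y1 ∉ Rm ∧ Y2 ∉ Rm ∧ Z ∈ Rm
    · obtain ⟨hb1, hb2, hb3, hb4⟩ := hb
      exact ⟨_, SM.both hb2 hb3 hb4, group_both hS hb2 hb3 hb4 hb1 h1⟩
    · have e1 : l = Y1 → Z ∉ Rm ∨ Y2 ∈ Rm := by
        rintro rfl
        by_contra hc
        push Not at hc
        exact hb ⟨Or.inl rfl, h6, hc.2, hc.1⟩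
      have e2 : l = Y2 → Z ∉ Rm ∨ Y1 ∈ Rm := by
        rintro rfl
        by_contra hc
        push Not at hc
        exact hb ⟨Or.inr rfl, hc.2, h6, hc.1⟩
      exact ⟨_, SM.one l h5 h6 e1 e2, group_one hS h5 e1 e2 h1⟩
  · have hk' : 3 ≤ l.1 := by omega
    rw [clr_eq] at h3
    obtain ⟨h4, h5, h6⟩ := h3
    have hne : l ≠ l' := by
      rintro rfl
      exact hsh.ne (zone_unique hk' h1 h2)
    obtain ⟨a, g, b⟩ := l
    obtain ⟨a', g', b'⟩ := l'
    simp only at h4 h5 h6 hk'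
    subst h4 h5
    have ha : a = 4 := by
      rcases h6 with h6 | h6 | h6
      · omega
      · exact h6
      · rw [h6] at hne
        exact absurd rfl hne
    subst ha
    have hbb : b ≠ b' := by
      rintro rfl
      exact hne rfl
    obtain ⟨c, r⟩ := x
    obtain ⟨c', r'⟩ := y
    obtain ⟨p1, p2, p3, p4, p5⟩ := lab4 h h1
    obtain ⟨q1, q2, q3, q4, q5⟩ := lab4 h h2
    have hrr : r = r' := by
      unfold Share at hsh
      simp only at hsh
      omega
    have hev := hS.even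
    have heq : S.tot Rm (2 * g) + S.zt (2 * g) = S.tot Rm (2 * g + 1) + S.zt (2 * g + 1) := by
      have : (b = 0 ∧ b' = 1) ∨ (b = 1 ∧ b' = 0) := by omega
      rcases this with ⟨rfl, rfl⟩ | ⟨rfl, rfl⟩
      · rw [Nat.add_zero] at p1
        subst p1 q1
        omega
      · rw [Nat.add_zero] at q1
        subst p1 q1
        omega
    have h4 : ((4, g, 0) : Lb) ∉ Rm := by
      have : b = 0 ∨ b = 1 := by omega
      rcases this with rfl | rfl
      · exact p4
      · rw [h.k4]; exact p4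
    exact ⟨_, SM.kill g (by omega) h4 heq, group_kill hS h (by omega) h4 heq h1⟩

/-- The game on the position is the game on the sets of removed labels. -/
theorem firstWins_pos (hS : S.Wf) : FirstWins (S.pos ∅) ↔ W (SM S) ∅ := by
  rw [firstWins_iff]
  refine W_bisim_iff (fun P Rm => P = S.pos Rm ∧ Inv Rm) ?_ ?_
    ⟨rfl, ⟨by simp, by simp⟩⟩
  · rintro _ Rm P' ⟨rfl, h⟩ hm
    obtain ⟨Rm', h1, h2⟩ := SM_of_move hS h hm
    exact ⟨Rm', h1, h2, SM.inv h h1⟩
  · rintro _ Rm Rm' ⟨rfl, h⟩ hm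
    exact ⟨_, move_of_SM hS h hm, rfl, SM.inv h hm⟩

end Sys

end Pool.Agent.W2helper56.CK
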