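import Pool.Agent.W2helper56.CK.Abs
import Pool.Agent.H656R2.AK.QG

/-!
# The game of a quantified formula
-/

set_option autoImplicit false

namespace Pool.Agent.W2helper56.CK

open Relation Pool.Agent.H656R2.AK Pool.Agent.H623R2.PS

/-- the occurrences of the literals, with the numbers of their clauses -/
def lits (Q : QF) : List (ℕ × Bool × ℕ) := Q.2.zipIdx.flatMap fun x => x.1.map fun l => (x.2, l)

theorem mem_lits {Q : QF} {j : ℕ} {l : Bool × ℕ} :
    (j, l) ∈ lits Q ↔ ∃ cl, Q.2[j]? = some cl ∧ l ∈ cl := by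
  unfold lits
  rw [List.mem_flatMap]
  constructor
  · rintro ⟨⟨cl, j'⟩, h1, h2⟩
    rw [List.mem_zipIdx_iff_getElem?] at h1
    simp only [List.mem_map, Prod.mk.injEq] at h2
    obtain ⟨l', h3, h4, h5⟩ := h2
    subst h4 h5
    exact ⟨cl, h1, h3⟩
  · rintro ⟨cl, h1, h2⟩
    exact ⟨(cl, j), List.mem_zipIdx_iff_getElem?.2 h1, by simpa using h2⟩

/-- the step at which the value of a variable is chosen -/
def vst (Q : QF) (v : ℕ) : ℕ := 2 * v + (if Q.1.getD v false = true then 1 else 0)

/-- the number of the choices at a step -/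
def wd (Q : QF) (t : ℕ) : ℕ :=
  if t < 2 * Q.1.length then (if t = vst Q (t / 2) then 2 else 1)
  else if t = 2 * Q.1.length then 1
  else if t = 2 * Q.1.length + 1 then Q.2.length
  else (lits Q).length

/-- the bands -/
def bsQ (Q : QF) : List (ℕ × ℕ) :=
  (List.range (2 * Q.1.length + 3)).flatMap fun t => (List.range (wd Q t)).map fun a => (t, a)

theorem mem_bsQ {Q : QF} {b : ℕ × ℕ} : b ∈ bsQ Q ↔ b.1 < 2 * Q.1.length + 3 ∧ b.2 < wd Q b.1 := by
  unfold bsQ
  simp only [List.mem_flatMap, List.mem_range, List.mem_map]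
  constructor
  · rintro ⟨t, h1, a, h2, rfl⟩
    exact ⟨h1, h2⟩
  · rintro ⟨h1, h2⟩
    exact ⟨b.1, h1, b.2, h2, rfl⟩

theorem nodup_bsQ (Q : QF) : (bsQ Q).Nodup := by
  unfold bsQ
  rw [List.nodup_flatMap]
  refine ⟨fun t _ => ?_, ?_⟩
  · refine List.Nodup.map (fun a b h => ?_) List.nodup_range
    simpa using h
  · refine List.nodup_range.pairwise_of_forall_ne ?_
    intro t _ t' _ htt x hx hx'
    rw [List.mem_map] at hx hx'
    obtain ⟨a, _, rfl⟩ := hx
    obtain ⟨a', _, h⟩ := hx'
    simp only [Prod.mk.injEq] at h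
    exact htt h.1.symm

/-- the band which encodes a literal -/
def lb (Q : QF) (l : Bool × ℕ) : ℕ × ℕ := (vst Q l.2, if l.1 = true then 1 else 0)

/-- the marked bands -/
def mrk (Q : QF) (g : ℕ) (b : ℕ × ℕ) : Bool :=
  if g < 2 * Q.1.length + 3 then decide (b.1 + 1 = g)
  else decide (b = (2 * Q.1.length + 2, g - (2 * Q.1.length + 3))) ||
    (decide (b = (2 * Q.1.length + 1, ((lits Q).getD (g - (2 * Q.1.length + 3)) (0, false, 0)).1)) ||
    decide (b = lb Q ((lits Q).getD (g - (2 * Q.1.length + 3)) (0, false, 0)).2))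

/-- the data of the game -/
def gdQ (Q : QF) : Gd where
  bs := bsQ Q
  B := (bsQ Q).length + (2 * Q.1.length + 7)
  G := 2 * Q.1.length + 3 + (lits Q).length
  T g := min g (2 * Q.1.length + 3)
  M g := if g = 0 then 0 else if g < 2 * Q.1.length + 3 then 1 else 3
  mark := mrk Q

theorem gdQ_wf (Q : QF) : (gdQ Q).Wf where
  nodup := nodup_bsQ Q
  len := by simp only [gdQ]; omega
  pos := by simp only [gdQ]; omega
  T g _ := by simp only [gdQ]; omega
  M g _ := by simp only [gdQ]; split_ifs <;> omega

variable {Q : QF}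

/-- the player to move wins after the removal of the bands in `s` -/
def WQ (Q : QF) (s : Finset (ℕ × ℕ)) : Prop := W (SM (gdQ Q).sys) (Gd.RB s)

/-- the sets of bands in a regular play -/
structure Val (Q : QF) (s : Finset (ℕ × ℕ)) (t : ℕ) : Prop where
  mem : ∀ b ∈ s, b ∈ bsQ Q
  lt : ∀ b ∈ s, b.1 < t
  card : s.card = t
  last : t ≠ 0 → (s.filter fun b => b.1 + 1 = t).card = 1

theorem Val.empty : Val Q ∅ 0 := ⟨by simp, by simp, by simp, by simp⟩

theorem Val.notMem {s : Finset (ℕ × ℕ)} {t : ℕ} (h : Val Q s t) {b : ℕ × ℕ} (hb : b.1 = t) :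
    b ∉ s := fun h1 => by
  have := h.lt b h1
  omega

theorem Val.insert {s : Finset (ℕ × ℕ)} {t : ℕ} (h : Val Q s t) {b : ℕ × ℕ} (hb : b ∈ bsQ Q)
    (hbt : b.1 = t) : Val Q (insert b s) (t + 1) where
  mem b' hb' := by
    rcases Finset.mem_insert.1 hb' with rfl | h1
    · exact hb
    · exact h.mem b' h1
  lt b' hb' := by
    rcases Finset.mem_insert.1 hb' with rfl | h1
    · omega
    · have := h.lt b' h1
      omega
  card := by rw [Finset.card_insert_of_notMem (h.notMem hbt), h.card]
  last _ := by
    rw [Finset.card_eq_one]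
    refine ⟨b, ?_⟩
    ext b'
    rw [Finset.mem_filter, Finset.mem_insert, Finset.mem_singleton]
    constructor
    · rintro ⟨rfl | h1, h2⟩
      · rfl
      · have := h.lt b' h1
        omega
    · rintro rfl
      exact ⟨Or.inl rfl, by omega⟩

theorem av0_lt {s : Finset (ℕ × ℕ)} {t g : ℕ} (hc : s.card = t) (ht : t < 2 * Q.1.length + 3)
    (h : (gdQ Q).Av0 g s) : g = t ∧ (t ≠ 0 → (s.filter fun b => b.1 + 1 = t).card = 1) := by
  obtain ⟨h1, h2, h3⟩ := h
  have hg : g = t := by
    simp only [gdQ] at h2
    omega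
  subst hg
  refine ⟨rfl, fun h0 => ?_⟩
  change (s.filter fun b => mrk Q g b = true).card =
    if g = 0 then 0 else if g < 2 * Q.1.length + 3 then 1 else 3 at h3
  rw [if_neg h0, if_pos ht] at h3
  refine Eq.trans ?_ h3
  congr 1
  ext b
  simp only [Finset.mem_filter, mrk, ht, if_true, decide_eq_true_eq]

theorem Val.av0 {s : Finset (ℕ × ℕ)} {t : ℕ} (h : Val Q s t) (ht : t < 2 * Q.1.length + 3) :
    (gdQ Q).Av0 t s := by
  refine ⟨by simp only [gdQ]; omega, ?_, ?_⟩
  · rw [h.card]
    simp only [gdQ]
    omega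
  · change (s.filter fun b => mrk Q t b = true).card =
      if t = 0 then 0 else if t < 2 * Q.1.length + 3 then 1 else 3
    by_cases h0 : t = 0
    · subst h0
      have : s = ∅ := Finset.card_eq_zero.1 h.card
      subst this
      rfl
    · rw [if_neg h0, if_pos ht]
      refine Eq.trans ?_ (h.last h0)
      congr 1
      ext b
      simp only [Finset.mem_filter, mrk, ht, if_true, decide_eq_true_eq]

theorem Val.step0 {s : Finset (ℕ × ℕ)} {t : ℕ} (h : Val Q s t) (ht : t < 2 * Q.1.length + 3) :
    WQ Q s ↔ ∃ b ∈ bsQ Q, b ∉ s ∧ ¬ WQ Q (Insert.insert b s) :=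
  Gd.W_one (gdQ_wf Q) h.mem (h.av0 ht) fun g' hg' => (av0_lt h.card ht hg').1

theorem Val.step {s : Finset (ℕ × ℕ)} {t : ℕ} (h : Val Q s t) (ht : t < 2 * Q.1.length + 2) :
    WQ Q s ↔ ∃ a < wd Q t, ¬ WQ Q (Insert.insert (t, a) s) := by
  rw [h.step0 (by omega)]
  constructor
  · rintro ⟨b, hb, hbs, hW⟩
    have hbt : b.1 = t := by
      by_contra hbt
      refine hW (Gd.W_none (gdQ_wf Q) ?_ ?_)
      · intro b' hb'
        rcases Finset.mem_insert.1 hb' with rfl | h1
        · exact hb
        · exact h.mem b' h1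
      · intro g hg
        have hc : (Insert.insert b s).card = t + 1 := by
          rw [Finset.card_insert_of_notMem hbs, h.card]
        have h1 := (av0_lt hc (by omega) hg).2 (by omega)
        obtain ⟨b', hb'⟩ := Finset.card_eq_one.1 h1
        have h2 : b' ∈ (Insert.insert b s).filter fun b => b.1 + 1 = t + 1 := by
          rw [hb']; simp
        rw [Finset.mem_filter, Finset.mem_insert] at h2
        obtain ⟨rfl | h3, h4⟩ := h2
        · omega
        · have := h.lt b' h3
          omega
    obtain ⟨t', a⟩ := b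
    simp only at hbt
    subst hbt
    exact ⟨a, (mem_bsQ.1 hb).2, hW⟩
  · rintro ⟨a, ha, hW⟩
    exact ⟨(t, a), mem_bsQ.2 ⟨by simp only; omega, ha⟩, h.notMem rfl, hW⟩

theorem insert_mem {s : Finset (ℕ × ℕ)} (h : ∀ b ∈ s, b ∈ bsQ Q) {b : ℕ × ℕ} (hb : b ∈ bsQ Q) :
    ∀ b' ∈ Insert.insert b s, b' ∈ bsQ Q := by
  intro b' hb'
  rcases Finset.mem_insert.1 hb' with rfl | h1
  · exact hb
  · exact h b' h1

/-- there are too many bands -/
theorem W_late {s : Finset (ℕ × ℕ)} (h : ∀ b ∈ s, b ∈ bsQ Q) (hc : 2 * Q.1.length + 3 < s.card) :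
    WQ Q s := by
  refine Gd.W_none (gdQ_wf Q) h ?_
  rintro g ⟨_, h2, _⟩
  simp only [gdQ] at h2
  omega

theorem vst_lt {v : ℕ} : vst Q v ≤ 2 * v + 1 := by
  unfold vst
  split_ifs <;> omega

/-- the marked bands of the gadget of a literal -/
theorem mrk_filter (hQ : QFwf Q) {k j : ℕ} {l : Bool × ℕ} (hk : (lits Q)[k]? = some (j, l))
    (s : Finset (ℕ × ℕ)) :
    (s.filter fun b => mrk Q (2 * Q.1.length + 3 + k) b = true).card = 3 ↔
      (2 * Q.1.length + 2, k) ∈ s ∧ (2 * Q.1.length + 1, j) ∈ s ∧ lb Q l ∈ s := by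
  have hmem : (j, l) ∈ lits Q := List.mem_of_getElem? hk
  have hl : l.2 < Q.1.length := by
    obtain ⟨cl, h1, h2⟩ := mem_lits.1 hmem
    exact hQ cl (List.mem_of_getElem? h1) l h2
  have hv := vst_lt (Q := Q) (v := l.2)
  have h1 : (s.filter fun b => mrk Q (2 * Q.1.length + 3 + k) b = true) =
      s ∩ {(2 * Q.1.length + 2, k), (2 * Q.1.length + 1, j), lb Q l} := by
    ext b
    have e1 : ¬ 2 * Q.1.length + 3 + k < 2 * Q.1.length + 3 := by omega
    simp only [Finset.mem_filter, mrk, e1, if_false, Nat.add_sub_cancel_left,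
      List.getD_eq_getElem?_getD, hk, Option.getD_some, Bool.or_eq_true, decide_eq_true_eq,
      Finset.mem_inter, Finset.mem_insert, Finset.mem_singleton]
  have h2 : ({(2 * Q.1.length + 2, k), (2 * Q.1.length + 1, j), lb Q l} : Finset (ℕ × ℕ)).card = 3 := by
    rw [Finset.card_eq_three]
    refine ⟨_, _, _, ?_, ?_, ?_, rfl⟩
    · intro h
      rw [Prod.mk.injEq] at h
      omega
    · intro h
      have := congrArg Prod.fst h
      simp only [lb] at this
      omega
    · intro h
      have := congrArg Prod.fst h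
      simp only [lb] at this
      omega
  rw [h1]
  constructor
  · intro h
    have h3 := Finset.eq_of_subset_of_card_le (Finset.inter_subset_right (s₁ := s)
      (s₂ := {(2 * Q.1.length + 2, k), (2 * Q.1.length + 1, j), lb Q l})) (by rw [h, h2])
    rw [Finset.inter_eq_right] at h3
    exact ⟨h3 (by simp), h3 (by simp), h3 (by simp)⟩
  · rintro ⟨a1, a2, a3⟩
    rw [Finset.inter_eq_right.2 ?_, h2]
    intro x hx
    simp only [Finset.mem_insert, Finset.mem_singleton] at hx
    rcases hx with rfl | rfl | rfl <;> assumption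

/-- the last choice -/
theorem Val.fin {s : Finset (ℕ × ℕ)} (hQ : QFwf Q) (h : Val Q s (2 * Q.1.length + 2)) :
    WQ Q s ↔ ∃ x ∈ lits Q, (2 * Q.1.length + 1, x.1) ∈ s ∧ lb Q x.2 ∈ s := by
  rw [h.step0 (by omega)]
  -- the gadgets after a move
  have key : ∀ b ∈ bsQ Q, b ∉ s → ∀ g, (gdQ Q).Av0 g (Insert.insert b s) →
      ∃ k, ∃ x, (lits Q)[k]? = some x ∧ g = 2 * Q.1.length + 3 + k ∧
        b = (2 * Q.1.length + 2, k) ∧ (2 * Q.1.length + 1, x.1) ∈ s ∧ lb Q x.2 ∈ s := by
    rintro b hb hbs g ⟨h1, h2, h3⟩
    rw [Finset.card_insert_of_notMem hbs, h.card] at h2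
    change ((Insert.insert b s).filter fun b => mrk Q g b = true).card =
      if g = 0 then 0 else if g < 2 * Q.1.length + 3 then 1 else 3 at h3
    simp only [gdQ] at h1 h2
    rw [if_neg (by omega), if_neg (by omega)] at h3
    obtain ⟨k, rfl⟩ : ∃ k, g = 2 * Q.1.length + 3 + k := ⟨g - (2 * Q.1.length + 3), by omega⟩
    have hk : k < (lits Q).length := by omega
    have hx := List.getElem?_eq_getElem hk
    set x := (lits Q)[k] with hxd
    obtain ⟨j, l⟩ := x
    rw [mrk_filter hQ hx] at h3
    obtain ⟨h4, h5, h6⟩ := h3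
    have hbk : b = (2 * Q.1.length + 2, k) := by
      rcases Finset.mem_insert.1 h4 with h7 | h7
      · exact h7.symm
      · exact absurd h7 (h.notMem rfl)
    refine ⟨k, (j, l), hx, rfl, hbk, ?_, ?_⟩
    · rcases Finset.mem_insert.1 h5 with h7 | h7
      · rw [hbk, Prod.mk.injEq] at h7
        omega
      · exact h7
    · rcases Finset.mem_insert.1 h6 with h7 | h7
      · exfalso
        have hmem : (j, l) ∈ lits Q := List.mem_of_getElem? hx
        have hl : l.2 < Q.1.length := by
          obtain ⟨cl, h1, h2⟩ := mem_lits.1 hmem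
          exact hQ cl (List.mem_of_getElem? h1) l h2
        have hv := vst_lt (Q := Q) (v := l.2)
        rw [hbk] at h7
        have := congrArg Prod.fst h7
        simp only [lb] at this
        omega
      · exact h7
  constructor
  · rintro ⟨b, hb, hbs, hW⟩
    by_contra hc
    push Not at hc
    refine hW (Gd.W_none (gdQ_wf Q) (insert_mem h.mem hb) ?_)
    intro g hg
    obtain ⟨k, x, h1, _, _, h4, h5⟩ := key b hb hbs g hg
    exact hc x (List.mem_of_getElem? h1) h4 h5
  · rintro ⟨x, hx, h4, h5⟩
    obtain ⟨k, hk⟩ := List.mem_iff_getElem?.1 hx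
    have hk' : k < (lits Q).length := (List.getElem?_eq_some_iff.1 hk).1
    have hb : (2 * Q.1.length + 2, k) ∈ bsQ Q := by
      rw [mem_bsQ]
      refine ⟨by simp only; omega, ?_⟩
      simp only [wd]
      rw [if_neg (by omega), if_neg (by omega), if_neg (by omega)]
      exact hk'
    have hbs : (2 * Q.1.length + 2, k) ∉ s := h.notMem rfl
    refine ⟨_, hb, hbs, ?_⟩
    have hav : (gdQ Q).Av0 (2 * Q.1.length + 3 + k) (Insert.insert (2 * Q.1.length + 2, k) s) := by
      refine ⟨by simp only [gdQ]; omega, ?_, ?_⟩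
      · rw [Finset.card_insert_of_notMem hbs, h.card]
        simp only [gdQ]
        omega
      · change ((Insert.insert (2 * Q.1.length + 2, k) s).filter fun b =>
          mrk Q (2 * Q.1.length + 3 + k) b = true).card =
          if 2 * Q.1.length + 3 + k = 0 then 0 else
            if 2 * Q.1.length + 3 + k < 2 * Q.1.length + 3 then 1 else 3
        rw [if_neg (by omega), if_neg (by omega)]
        obtain ⟨j, l⟩ := x
        rw [mrk_filter hQ hk]
        exact ⟨Finset.mem_insert_self _ _, Finset.mem_insert_of_mem h4, Finset.mem_insert_of_mem h5⟩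
    have huniq : ∀ g', (gdQ Q).Av0 g' (Insert.insert (2 * Q.1.length + 2, k) s) →
        g' = 2 * Q.1.length + 3 + k := by
      intro g' hg'
      obtain ⟨k', x', h1, h2, h3, _, _⟩ := key _ hb hbs g' hg'
      rw [Prod.mk.injEq] at h3
      rw [h2, h3.2]
    unfold WQ
    rw [Gd.W_one (gdQ_wf Q) (insert_mem h.mem hb) hav huniq]
    rintro ⟨b', hb', hbs', hW⟩
    refine hW (W_late (insert_mem (insert_mem h.mem hb) hb') ?_)
    rw [Finset.card_insert_of_notMem hbs', Finset.card_insert_of_notMem hbs, h.card]
    omega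

/-- the sets of bands and the values of the variables -/
structure En (Q : QF) (u : List Bool) (s : Finset (ℕ × ℕ)) : Prop where
  val : Val Q s (2 * u.length)
  mem : ∀ v < u.length, ∀ σ : Bool, lb Q (σ, v) ∈ s ↔ u.getD v false = σ

theorem En.final {u : List Bool} {s : Finset (ℕ × ℕ)} (hQ : QFwf Q) (h : En Q u s)
    (hu : u.length = Q.1.length) : WQ Q s ↔ evc u Q.2 = true := by
  have hv := h.val
  rw [hu] at hv
  rw [hv.step (by omega)]
  have w1 : wd Q (2 * Q.1.length) = 1 := by
    unfold wd
    rw [if_neg (by omega), if_pos rfl]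
  have w2 : wd Q (2 * Q.1.length + 1) = Q.2.length := by
    unfold wd
    rw [if_neg (by omega), if_neg (by omega), if_pos rfl]
  have hb0 : (2 * Q.1.length, 0) ∈ bsQ Q := mem_bsQ.2 ⟨by simp only; omega, by simp only; omega⟩
  have hv1 := hv.insert hb0 rfl
  have e1 : (∃ a < wd Q (2 * Q.1.length), ¬ WQ Q (Insert.insert (2 * Q.1.length, a) s)) ↔
      ¬ WQ Q (Insert.insert (2 * Q.1.length, 0) s) := by
    rw [w1]
    constructor
    · rintro ⟨a, ha, hW⟩
      have : a = 0 := by omega
      rwa [this] at hW
    · exact fun hW => ⟨0, by omega, hW⟩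
  rw [e1, hv1.step (by omega), w2]
  push Not
  unfold evc
  rw [List.all_eq_true]
  have hs2 : ∀ j, (2 * Q.1.length + 1, j) ∉ s := fun j hj => by
    have := hv.lt _ hj
    simp only at this
    omega
  have key : ∀ j, j < Q.2.length → (WQ Q (Insert.insert (2 * Q.1.length + 1, j)
      (Insert.insert (2 * Q.1.length, 0) s)) ↔ ∃ l ∈ Q.2.getD j [], u.getD l.2 false = l.1) := by
    intro j hj
    have hb1 : (2 * Q.1.length + 1, j) ∈ bsQ Q :=
      mem_bsQ.2 ⟨by simp only; omega, by simp only; omega⟩
    have hv2 := hv1.insert hb1 rfl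
    rw [hv2.fin hQ]
    have hcl : Q.2[j]? = some (Q.2.getD j []) := by
      rw [List.getD_eq_getElem?_getD, List.getElem?_eq_getElem hj]
      rfl
    have hlb : ∀ l : Bool × ℕ, l.2 < Q.1.length → (lb Q l ∈ Insert.insert (2 * Q.1.length + 1, j)
        (Insert.insert (2 * Q.1.length, 0) s) ↔ u.getD l.2 false = l.1) := by
      intro l hl
      have hvl := vst_lt (Q := Q) (v := l.2)
      rw [← h.mem l.2 (by omega) l.1, Finset.mem_insert, Finset.mem_insert]
      constructor
      · rintro (h1 | h1 | h1)
        · have := congrArg Prod.fst h1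
          simp only [lb] at this
          omega
        · have := congrArg Prod.fst h1
          simp only [lb] at this
          omega
        · exact h1
      · exact fun h1 => Or.inr (Or.inr h1)
    constructor
    · rintro ⟨⟨j', l⟩, h1, h2, h3⟩
      have hjj : j' = j := by
        rcases Finset.mem_insert.1 h2 with h4 | h4
        · rw [Prod.mk.injEq] at h4
          exact h4.2
        · rcases Finset.mem_insert.1 h4 with h5 | h5
          · rw [Prod.mk.injEq] at h5
            omega
          · exact absurd h5 (hs2 _)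
      subst hjj
      obtain ⟨cl, h4, h5⟩ := mem_lits.1 h1
      rw [hcl, Option.some.injEq] at h4
      subst h4
      have hl : l.2 < Q.1.length := hQ _ (List.mem_of_getElem? hcl) l h5
      exact ⟨l, h5, (hlb l hl).1 h3⟩
    · rintro ⟨l, h1, h2⟩
      have hl : l.2 < Q.1.length := hQ _ (List.mem_of_getElem? hcl) l h1
      exact ⟨(j, l), mem_lits.2 ⟨_, hcl, h1⟩, Finset.mem_insert_self _ _, (hlb l hl).2 h2⟩
  constructor
  · intro hall c hc
    obtain ⟨j, hj, rfl⟩ := List.getElem_of_mem hc
    have h1 := (key j hj).1 (hall j hj)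
    obtain ⟨l, h2, h3⟩ := h1
    rw [List.getD_eq_getElem?_getD, List.getElem?_eq_getElem hj] at h2
    rw [List.any_eq_true]
    exact ⟨l, h2, by rw [beq_iff_eq]; exact h3⟩
  · intro hall j hj
    rw [key j hj]
    have h1 := hall _ (List.getElem_mem hj)
    rw [List.any_eq_true] at h1
    obtain ⟨l, h2, h3⟩ := h1
    refine ⟨l, ?_, by simpa using h3⟩
    rw [List.getD_eq_getElem?_getD, List.getElem?_eq_getElem hj]
    exact h2

theorem lb_inj {v v' : ℕ} {σ σ' : Bool} (h : lb Q (σ, v) = lb Q (σ', v')) : v = v' ∧ σ = σ' := by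
  unfold lb at h
  rw [Prod.mk.injEq] at h
  obtain ⟨h1, h2⟩ := h
  unfold vst at h1
  have hv : v = v' := by
    split_ifs at h1 <;> omega
  refine ⟨hv, ?_⟩
  cases σ <;> cases σ' <;> simp at h2 ⊢

/-- two steps for one variable -/
theorem En.next {u : List Bool} {s : Finset (ℕ × ℕ)} (h : En Q u s) (hu : u.length < Q.1.length)
    (σ : Bool) {a a' : ℕ} (ha : a < wd Q (2 * u.length)) (ha' : a' < wd Q (2 * u.length + 1))
    (hl : lb Q (σ, u.length) = (2 * u.length, a) ∨ lb Q (σ, u.length) = (2 * u.length + 1, a')) :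
    En Q (u ++ [σ]) (Insert.insert (2 * u.length + 1, a') (Insert.insert (2 * u.length, a) s)) := by
  have hb0 : (2 * u.length, a) ∈ bsQ Q := mem_bsQ.2 ⟨by simp only; omega, ha⟩
  have hb1 : (2 * u.length + 1, a') ∈ bsQ Q := mem_bsQ.2 ⟨by simp only; omega, ha'⟩
  have h1 := (h.val.insert hb0 rfl).insert hb1 rfl
  have hlen : (u ++ [σ]).length = u.length + 1 := by simp
  refine ⟨?_, ?_⟩
  · rw [hlen]
    exact h1
  · intro v hv τ
    rw [hlen] at hv
    rw [Finset.mem_insert, Finset.mem_insert]
    by_cases hvu : v = u.length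
    · subst hvu
      have e : (u ++ [σ]).getD u.length false = σ := by
        simp [List.getD_eq_getElem?_getD]
      rw [e]
      have hvs : (lb Q (τ, u.length)).1 = 2 * u.length ∨ (lb Q (τ, u.length)).1 = 2 * u.length + 1 := by
        unfold lb vst
        simp only
        split_ifs <;> omega
      have hns : lb Q (τ, u.length) ∉ s := fun hm => by
        have := h.val.lt _ hm
        omega
      have hst : (lb Q (τ, u.length)).1 = (lb Q (σ, u.length)).1 := rfl
      constructor
      · intro h2
        rcases hl with hl | hl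
        · rcases h2 with h2 | h2 | h2
          · rw [h2, hl] at hst
            simp at hst
          · rw [← hl] at h2
            exact (lb_inj h2).2.symm
          · exact absurd h2 hns
        · rcases h2 with h2 | h2 | h2
          · rw [← hl] at h2
            exact (lb_inj h2).2.symm
          · rw [h2, hl] at hst
            simp at hst
          · exact absurd h2 hns
      · rintro rfl
        rcases hl with hl | hl
        · exact Or.inr (Or.inl hl)
        · exact Or.inl hl
    · have hvu' : v < u.length := by omega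
      have e : (u ++ [σ]).getD v false = u.getD v false := by
        simp only [List.getD_eq_getElem?_getD]
        rw [List.getElem?_append_left (by omega)]
      rw [e, ← h.mem v hvu' τ]
      have h3 := vst_lt (Q := Q) (v := v)
      constructor
      · rintro (h2 | h2 | h2)
        · have := congrArg Prod.fst h2
          simp only [lb] at this
          omega
        · have := congrArg Prod.fst h2
          simp only [lb] at this
          omega
        · exact h2
      · exact fun h2 => Or.inr (Or.inr h2)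

theorem main (hQ : QFwf Q) (rest : List Bool) : ∀ (u : List Bool) (s : Finset (ℕ × ℕ)),
    (∃ pre : List Bool, Q.1 = pre ++ rest ∧ pre.length = u.length) → En Q u s →
    (WQ Q s ↔ evq rest (fun w => evc (u ++ w) Q.2) = true) := by
  induction rest with
  | nil =>
    rintro u s ⟨pre, hpre, hlen⟩ h
    rw [h.final hQ (by rw [← hlen, hpre]; simp)]
    simp [evq]
  | cons q rest ih =>
    rintro u s ⟨pre, hpre, hlen⟩ h
    have hlt : u.length < Q.1.length := by rw [hpre, ← hlen]; simp
    have hget : Q.1.getD u.length false = q := by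
      rw [hpre, ← hlen]
      simp [List.getD_eq_getElem?_getD]
    have hex : ∀ b : Bool, ∃ pre' : List Bool, Q.1 = pre' ++ rest ∧
        pre'.length = (u ++ [b]).length :=
      fun b => ⟨pre ++ [q], by rw [hpre]; simp, by simp [hlen]⟩
    have happ : ∀ (b : Bool), (fun w => evc ((u ++ [b]) ++ w) Q.2) =
        (fun w => evc (u ++ (b :: w)) Q.2) := fun b => by
      funext w
      simp
    have d0 : 2 * u.length / 2 = u.length := by omega
    have d1 : (2 * u.length + 1) / 2 = u.length := by omega
    have l0 : 2 * u.length < 2 * Q.1.length := by omega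
    have l1 : 2 * u.length + 1 < 2 * Q.1.length := by omega
    have hb : ∀ (a : ℕ), a < wd Q (2 * u.length) → (2 * u.length, a) ∈ bsQ Q := fun a ha =>
      mem_bsQ.2 ⟨by simp only; omega, ha⟩
    have ev : ∀ qs f, evq (q :: qs) f = cond q (evq qs (fun w => f (true :: w)) && evq qs (fun w => f (false :: w)))
      (evq qs (fun w => f (true :: w)) || evq qs (fun w => f (false :: w))) := by
      intro qs f
      cases q <;> simp [evq, Bool.and_comm, Bool.or_comm]
    rw [ev, h.val.step (by omega)]
    cases q with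
    | false =>
      have hvs : vst Q u.length = 2 * u.length := by
        unfold vst
        rw [hget]
        simp
      have w0 : wd Q (2 * u.length) = 2 := by
        unfold wd
        rw [if_pos l0, d0, hvs, if_pos rfl]
      have w1 : wd Q (2 * u.length + 1) = 1 := by
        unfold wd
        rw [if_pos l1, d1, hvs, if_neg (by omega)]
      have key : ∀ σ : Bool, (¬ WQ Q (Insert.insert (2 * u.length, if σ = true then 1 else 0) s)) ↔
          evq rest (fun w => evc (u ++ (σ :: w)) Q.2) = true := by
        intro σ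
        have hσ : (if σ = true then 1 else 0) < wd Q (2 * u.length) := by
          rw [w0]
          split_ifs <;> omega
        rw [(h.val.insert (hb _ hσ) rfl).step (by omega), w1, ← happ σ, ← ih (u ++ [σ]) _ (hex σ)
          (h.next hlt σ hσ (a' := 0) (by omega) (Or.inl (by unfold lb; rw [hvs])))]
        push Not
        constructor
        · intro h1
          exact h1 0 (by omega)
        · intro h1 a ha
          have : a = 0 := by omega
          rw [this]
          exact h1
      rw [w0, cond_false, Bool.or_eq_true, ← key true, ← key false]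
      constructor
      · rintro ⟨a, ha, hW⟩
        have : a = 0 ∨ a = 1 := by omega
        rcases this with rfl | rfl
        · exact Or.inr hW
        · exact Or.inl hW
      · rintro (hW | hW)
        · exact ⟨1, by omega, hW⟩
        · exact ⟨0, by omega, hW⟩
    | true =>
      have hvs : vst Q u.length = 2 * u.length + 1 := by
        unfold vst
        rw [hget]
        simp
      have w0 : wd Q (2 * u.length) = 1 := by
        unfold wd
        rw [if_pos l0, d0, hvs, if_neg (by omega)]
      have w1 : wd Q (2 * u.length + 1) = 2 := by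
        unfold wd
        rw [if_pos l1, d1, hvs, if_pos rfl]
      have key : ∀ σ : Bool, WQ Q (Insert.insert (2 * u.length + 1, if σ = true then 1 else 0)
          (Insert.insert (2 * u.length, 0) s)) ↔
          evq rest (fun w => evc (u ++ (σ :: w)) Q.2) = true := by
        intro σ
        have hσ : (if σ = true then 1 else 0) < wd Q (2 * u.length + 1) := by
          rw [w1]
          split_ifs <;> omega
        rw [← happ σ, ← ih (u ++ [σ]) _ (hex σ)
          (h.next hlt σ (a := 0) (by omega) hσ (Or.inr (by unfold lb; rw [hvs])))]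
      have e1 : (∃ a < wd Q (2 * u.length), ¬ WQ Q (Insert.insert (2 * u.length, a) s)) ↔
          ¬ WQ Q (Insert.insert (2 * u.length, 0) s) := by
        rw [w0]
        constructor
        · rintro ⟨a, ha, hW⟩
          have : a = 0 := by omega
          rwa [this] at hW
        · exact fun hW => ⟨0, by omega, hW⟩
      rw [e1, (h.val.insert (hb 0 (by omega)) rfl).step (by omega), w1, cond_true,
        Bool.and_eq_true, ← key true, ← key false]
      push Not
      constructor
      · intro h1
        exact ⟨h1 1 (by omega), h1 0 (by omega)⟩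
      · rintro ⟨h1, h2⟩ a ha
        have : a = 0 ∨ a = 1 := by omega
        rcases this with rfl | rfl
        · exact h2
        · exact h1

/-- The first player wins on the position of a quantified formula if and only if it is true. -/
theorem firstWins_gdQ (hQ : QFwf Q) : FirstWins ((gdQ Q).sys.pos ∅) ↔
    evq Q.1 (fun w => evc w Q.2) = true := by
  rw [Sys.firstWins_pos (Gd.sys_wf (gdQ_wf Q))]
  have h := main hQ Q.1 [] ∅ ⟨[], rfl, rfl⟩ ⟨Val.empty, by simp⟩
  have e : Gd.RB ∅ = ∅ := rfl
  unfold WQ at h
  rw [e] at h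
  simpa using h

end Pool.Agent.W2helper56.CK
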