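import Pool.Agent.W2helper56.CK.Q
import Pool.Agent.W2helper56.Util
import Pool.Agent.H656R2.AK.TQPoly

/-!
# Two-player Clickomania is hard for polynomial space
-/

set_option autoImplicit false

namespace Pool.Agent.W2helper56.CK

open Pool.Agent.NPC Pool.Agent.H623R2.PS
open Pool.Agent.H656R2.AK (QF QFwf evc qbf_hard)

/-- the additional thickness, computed -/
def exQ (Q : QF) (c : ℕ) (l : Lb) : ℕ :=
  if c % 2 = 0 then 0 else
    if l.1 = 2 then (gdQ Q).B + (if mrk Q (c / 2) l.2 = true then 1 else 0)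
    else (gdQ Q).B * (gdQ Q).B

/-- the segments -/
def stkQ (Q : QF) : List Lb := Y1 :: Z :: Y2 :: (bsQ Q).map bd

/-- the sum of the additional thicknesses -/
def dlQ (Q : QF) (g : ℕ) : ℕ := ((stkQ Q).map (exQ Q (2 * g + 1))).sum

/-- the threshold -/
def thrQ (Q : QF) (g : ℕ) : ℕ :=
  (gdQ Q).B * (gdQ Q).B + ((gdQ Q).T g * (gdQ Q).B + (gdQ Q).M g)

/-- a column -/
def colQ (Q : QF) (c : ℕ) : List ℕ :=
  ((stkQ Q).flatMap fun l => (List.range ((gdQ Q).H + exQ Q c l)).map fun _ => clr l) ++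
    (List.range (if c % 2 = 0 then (gdQ Q).H else (gdQ Q).H - dlQ Q (c / 2))).map fun i =>
      clr (if i = (if c % 2 = 0 then dlQ Q (c / 2) - thrQ Q (c / 2) else 0)
        then (4, c / 2, c % 2) else (3, c, i))

/-- the position -/
def posQ (Q : QF) : Pos := (List.range (2 * (gdQ Q).G)).map (colQ Q)

theorem e_eq (Q : QF) (g : ℕ) (l : Lb) : exQ Q (2 * g + 1) l = (gdQ Q).e g l := by
  unfold exQ Gd.e
  rw [if_neg (by omega), show (2 * g + 1) / 2 = g by omega]
  rfl

theorem dl_eq (Q : QF) (g : ℕ) : dlQ Q g = (gdQ Q).dl g := by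
  unfold dlQ Gd.dl
  congr 1
  exact List.map_congr_left fun l _ => e_eq Q g l

theorem exQ_eq (Q : QF) (c : ℕ) (l : Lb) : exQ Q c l = (gdQ Q).sys.ex c l := by
  by_cases hc : c % 2 = 0
  · unfold exQ
    simp only [Gd.sys, hc, if_true]
  · have h := e_eq Q (c / 2) l
    rw [show 2 * (c / 2) + 1 = c by omega] at h
    rw [h]
    simp only [Gd.sys, hc, if_false]

theorem posQ_eq (Q : QF) : posQ Q = (gdQ Q).sys.pos ∅ := by
  unfold posQ Sys.pos
  refine List.map_congr_left fun c _ => ?_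
  unfold colQ Sys.col Sys.ls Sys.zs
  rw [List.map_append]
  congr 1
  · rw [List.filter_eq_self.2 (by simp), List.map_flatMap]
    change List.flatMap _ (stkQ Q) = List.flatMap _ (stkQ Q)
    congr 1
    funext l
    rw [List.map_const', List.length_range, List.map_replicate, exQ_eq]
    rfl
  · rw [List.filter_eq_self.2 (by simp)]
    unfold Sys.zone
    rw [List.map_map]
    have h1 : (gdQ Q).sys.zl c = if c % 2 = 0 then (gdQ Q).H else (gdQ Q).H - dlQ Q (c / 2) := by
      rw [dl_eq]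
      rfl
    have h2 : (gdQ Q).sys.zt c = if c % 2 = 0 then dlQ Q (c / 2) - thrQ Q (c / 2) else 0 := by
      rw [dl_eq]
      rfl
    rw [h1, h2]
    rfl

/-- the heights of the columns -/
theorem length_colQ (Q : QF) (c : ℕ) :
    (colQ Q c).length = ((stkQ Q).length + 1) * (gdQ Q).H := by
  unfold colQ
  rw [List.length_append, List.length_flatMap, List.length_map, List.length_range]
  simp only [List.length_map, List.length_range]
  rw [sum_add]
  by_cases hc : c % 2 = 0
  · rw [if_pos hc]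
    have : ((stkQ Q).map (exQ Q c)).sum = 0 := by
      have h : exQ Q c = fun _ => 0 := by
        funext l
        unfold exQ
        rw [if_pos hc]
      rw [h, List.map_const', List.sum_replicate]
      simp
    rw [this]
    ring
  · rw [if_neg hc]
    have h1 : ((stkQ Q).map (exQ Q c)).sum = dlQ Q (c / 2) := by
      unfold dlQ
      rw [show 2 * (c / 2) + 1 = c by omega]
    have h2 := Gd.dl_le (gdQ_wf Q) (c / 2)
    rw [← dl_eq] at h2
    rw [h1, Nat.add_mul, one_mul]
    omega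

/-- the instance of a position -/
def inst (P : Pos) : ℕ × ℕ × ℕ × Pos := (P.flatten.sum + 1, P.length, (P.getD 0 []).length, P)

theorem instQ_iff {Q : QF} (hQ : QFwf Q) :
    Clickomania (inst (posQ Q)) ↔ evq Q.1 (fun w => evc w Q.2) = true := by
  rw [← firstWins_gdQ hQ, ← posQ_eq]
  unfold Clickomania inst
  simp only
  refine and_iff_right ⟨?_, ?_, rfl, ?_⟩
  · unfold posQ
    rw [List.length_map, List.length_range]
    have := (gdQ_wf Q).pos
    omega
  · have h0 : (posQ Q).getD 0 [] = colQ Q 0 := by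
      unfold posQ
      rw [List.getD_eq_getElem?_getD, List.getElem?_map, List.getElem?_range
        (by have := (gdQ_wf Q).pos; omega)]
      rfl
    rw [h0, length_colQ]
    refine Nat.mul_pos (by omega) ?_
    unfold Gd.H
    omega
  · intro col hcol
    refine ⟨?_, ?_⟩
    · have h0 : (posQ Q).getD 0 [] = colQ Q 0 := by
        unfold posQ
        rw [List.getD_eq_getElem?_getD, List.getElem?_map, List.getElem?_range
          (by have := (gdQ_wf Q).pos; omega)]
        rfl
      rw [h0, length_colQ]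
      unfold posQ at hcol
      rw [List.mem_map] at hcol
      obtain ⟨c, _, rfl⟩ := hcol
      exact length_colQ Q c
    · intro x hx
      have h1 : x ∈ (posQ Q).flatten := List.mem_flatten.2 ⟨col, hcol, hx⟩
      have h2 := List.single_le_sum (fun y _ => Nat.zero_le y) x h1
      omega

section Poly

theorem poly_lits : NPC.Poly lits := by
  unfold lits
  refine NPC.Poly.flatMap (l := fun Q : QF => Q.2.zipIdx)
    (F := fun _ (x : List (Bool × ℕ) × ℕ) => x.1.map fun l => (x.2, l)) (by fun_prop) ?_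
  exact NPC.Poly.map (l := fun p : QF × (List (Bool × ℕ) × ℕ) => p.2.1)
    (F := fun p l => (p.2.2, l)) (by fun_prop) (by fun_prop)

theorem poly_n : UPoly (fun Q : QF => Q.1.length) := UPoly.length (by fun_prop)

theorem poly_vst : NPC.Poly (fun p : QF × ℕ => vst p.1 p.2) := by
  unfold vst
  have h1 : NPC.Poly (fun p : QF × ℕ => decide (p.1.1.getD p.2 false = true)) := by fun_prop
  exact (NPC.Poly.mul (NPC.Poly.const 2) (NPC.Poly.snd NPC.Poly.id)).add
    (NPC.Poly.ite h1 (NPC.Poly.const 1) (NPC.Poly.const 0))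

theorem poly_wd : NPC.Poly (fun p : QF × ℕ => wd p.1 p.2) := by
  unfold wd
  have h1 := poly_vst.comp (f := fun p : QF × ℕ => (p.1, p.2 / 2)) (by fun_prop)
  have h2 : NPC.Poly (fun p : QF × ℕ => decide (p.2 = vst p.1 (p.2 / 2))) :=
    NPC.Poly.decide_eq (by fun_prop) h1
  have h3 : NPC.Poly (fun p : QF × ℕ => (lits p.1).length) :=
    NPC.Poly.length (poly_lits.comp (by fun_prop))
  refine NPC.Poly.ite (by fun_prop) (NPC.Poly.ite h2 (by fun_prop) (by fun_prop)) ?_
  refine NPC.Poly.ite (by fun_prop) (by fun_prop) ?_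
  exact NPC.Poly.ite (by fun_prop) (by fun_prop) h3

theorem upoly_wd : UPoly (fun p : QF × ℕ => wd p.1 p.2) := by
  have h3 : UPoly (fun p : QF × ℕ => 2 + ((p.1.2).length + (lits p.1).length)) :=
    (UPoly.const 2).add ((UPoly.length (by fun_prop)).add
      (UPoly.length (poly_lits.comp (by fun_prop))))
  refine UPoly.of_le poly_wd h3 ?_
  rintro ⟨Q, t⟩
  simp only [wd]
  split_ifs <;> omega

theorem poly_bsQ : NPC.Poly bsQ := by
  unfold bsQ
  refine NPC.Poly.flatMap (l := fun Q : QF => List.range (2 * Q.1.length + 3))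
    (F := fun Q t => (List.range (wd Q t)).map fun a => (t, a)) ?_ ?_
  · exact (((UPoly.const 2).mul poly_n).add (UPoly.const 3)).range
  · exact NPC.Poly.map (l := fun p : QF × ℕ => List.range (wd p.1 p.2))
      (F := fun p a => (p.2, a)) upoly_wd.range (by fun_prop)

theorem poly_mrk : NPC.Poly (fun p : QF × ℕ × (ℕ × ℕ) => mrk p.1 p.2.1 p.2.2) := by
  have h1 : NPC.Poly (fun p : QF × ℕ × (ℕ × ℕ) =>
      (lits p.1).getD (p.2.1 - (2 * p.1.1.length + 3)) (0, false, 0)) :=
    NPC.Poly.getD (poly_lits.comp (by fun_prop)) (by fun_prop) (by fun_prop)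
  have h2 : NPC.Poly (fun p : QF × ℕ × (ℕ × ℕ) =>
      lb p.1 ((lits p.1).getD (p.2.1 - (2 * p.1.1.length + 3)) (0, false, 0)).2) := by
    unfold lb
    refine NPC.Poly.pair ?_ ?_
    · exact poly_vst.comp (f := fun p : QF × ℕ × (ℕ × ℕ) =>
        (p.1, ((lits p.1).getD (p.2.1 - (2 * p.1.1.length + 3)) (0, false, 0)).2.2))
        (NPC.Poly.pair (by fun_prop) (NPC.Poly.snd (NPC.Poly.snd h1)))
    · exact NPC.Poly.ite (NPC.Poly.decide_bool (NPC.Poly.fst (NPC.Poly.snd h1)))
        (NPC.Poly.const 1) (NPC.Poly.const 0)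
  unfold mrk
  refine NPC.Poly.ite (by fun_prop) (by fun_prop) ?_
  refine NPC.Poly.or (by fun_prop) (NPC.Poly.or ?_ ?_)
  · exact NPC.Poly.decide_eq (by fun_prop) (NPC.Poly.pair (by fun_prop) (NPC.Poly.fst h1))
  · exact NPC.Poly.decide_eq (by fun_prop) h2

theorem upoly_B : UPoly (fun Q : QF => (gdQ Q).B) :=
  (UPoly.length poly_bsQ).add (((UPoly.const 2).mul poly_n).add (UPoly.const 7))

theorem upoly_H : UPoly (fun Q : QF => (gdQ Q).H) :=
  (((UPoly.const 4).mul (upoly_B.mul upoly_B)).add upoly_B).add (UPoly.const 2)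

theorem upoly_G : UPoly (fun Q : QF => (gdQ Q).G) :=
  (((UPoly.const 2).mul poly_n).add (UPoly.const 3)).add (UPoly.length poly_lits)

theorem poly_exQ : NPC.Poly (fun p : QF × ℕ × Lb => exQ p.1 p.2.1 p.2.2) := by
  unfold exQ
  have hB : NPC.Poly (fun p : QF × ℕ × Lb => (gdQ p.1).B) := upoly_B.toPoly.comp (by fun_prop)
  have hm := poly_mrk.comp (f := fun p : QF × ℕ × Lb => (p.1, p.2.1 / 2, p.2.2.2)) (by fun_prop)
  refine NPC.Poly.ite (by fun_prop) (by fun_prop) (NPC.Poly.ite (by fun_prop) ?_ (hB.mul hB))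
  exact hB.add (NPC.Poly.ite (NPC.Poly.decide_bool hm) (NPC.Poly.const 1) (NPC.Poly.const 0))

theorem upoly_exQ : UPoly (fun p : QF × ℕ × Lb => (gdQ p.1).H + exQ p.1 p.2.1 p.2.2) := by
  have hB : UPoly (fun p : QF × ℕ × Lb => (gdQ p.1).B) := upoly_B.comp (by fun_prop)
  have hH : UPoly (fun p : QF × ℕ × Lb => (gdQ p.1).H) := upoly_H.comp (by fun_prop)
  refine UPoly.of_le (hH.toPoly.add poly_exQ)
    (hH.add ((hB.mul hB).add (hB.add (UPoly.const 1)))) ?_
  rintro ⟨Q, c, l⟩
  simp only [exQ]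
  have := Nat.zero_le ((gdQ Q).B * (gdQ Q).B)
  split_ifs <;> omega

theorem poly_clr : NPC.Poly clr := by
  unfold clr
  refine poly_natPair (by fun_prop) (poly_natPair (by fun_prop) ?_)
  exact NPC.Poly.ite (by fun_prop) (by fun_prop) (by fun_prop)

theorem poly_stkQ : NPC.Poly stkQ := by
  unfold stkQ
  have : NPC.Poly (fun Q : QF => (bsQ Q).map bd) :=
    NPC.Poly.map (l := bsQ) (F := fun _ b => bd b) poly_bsQ (by fun_prop)
  fun_prop

theorem poly_dlQ : NPC.Poly (fun p : QF × ℕ => dlQ p.1 p.2) := by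
  unfold dlQ
  refine NPC.Poly.sum (NPC.Poly.map (l := fun p : QF × ℕ => stkQ p.1)
    (F := fun p l => exQ p.1 (2 * p.2 + 1) l) (poly_stkQ.comp (by fun_prop)) ?_)
  exact poly_exQ.comp (f := fun p : (QF × ℕ) × Lb => (p.1.1, 2 * p.1.2 + 1, p.2)) (by fun_prop)

theorem poly_thrQ : NPC.Poly (fun p : QF × ℕ => thrQ p.1 p.2) := by
  unfold thrQ
  have hB : NPC.Poly (fun p : QF × ℕ => (gdQ p.1).B) := upoly_B.toPoly.comp (by fun_prop)
  have hT : NPC.Poly (fun p : QF × ℕ => (gdQ p.1).T p.2) := by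
    change NPC.Poly (fun p : QF × ℕ => min p.2 (2 * p.1.1.length + 3))
    fun_prop
  have hM : NPC.Poly (fun p : QF × ℕ => (gdQ p.1).M p.2) := by
    change NPC.Poly (fun p : QF × ℕ =>
      if p.2 = 0 then 0 else if p.2 < 2 * p.1.1.length + 3 then 1 else 3)
    exact NPC.Poly.ite (by fun_prop) (by fun_prop)
      (NPC.Poly.ite (by fun_prop) (by fun_prop) (by fun_prop))
  exact (hB.mul hB).add ((hT.mul hB).add hM)

theorem poly_colQ : NPC.Poly (fun p : QF × ℕ => colQ p.1 p.2) := by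
  unfold colQ
  have hH : UPoly (fun p : QF × ℕ => (gdQ p.1).H) := upoly_H.comp (by fun_prop)
  have hdl := poly_dlQ.comp (f := fun p : QF × ℕ => (p.1, p.2 / 2)) (by fun_prop)
  have hthr := poly_thrQ.comp (f := fun p : QF × ℕ => (p.1, p.2 / 2)) (by fun_prop)
  refine NPC.Poly.append ?_ ?_
  · refine NPC.Poly.flatMap (l := fun p : QF × ℕ => stkQ p.1)
      (F := fun p l => (List.range ((gdQ p.1).H + exQ p.1 p.2 l)).map fun _ => clr l)
      (poly_stkQ.comp (by fun_prop)) ?_
    refine NPC.Poly.map (l := fun q : (QF × ℕ) × Lb =>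
      List.range ((gdQ q.1.1).H + exQ q.1.1 q.1.2 q.2)) (F := fun q _ => clr q.2) ?_ ?_
    · exact (upoly_exQ.comp (f := fun q : (QF × ℕ) × Lb => (q.1.1, q.1.2, q.2))
        (by fun_prop)).range
    · exact poly_clr.comp (by fun_prop)
  · refine NPC.Poly.map (l := fun p : QF × ℕ =>
      List.range (if p.2 % 2 = 0 then (gdQ p.1).H else (gdQ p.1).H - dlQ p.1 (p.2 / 2)))
      (F := fun p i => clr (if i = (if p.2 % 2 = 0 then dlQ p.1 (p.2 / 2) - thrQ p.1 (p.2 / 2)
        else 0) then (4, p.2 / 2, p.2 % 2) else (3, p.2, i))) ?_ ?_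
    · refine UPoly.range (UPoly.of_le ?_ hH ?_)
      · exact NPC.Poly.ite (by fun_prop) hH.toPoly (hH.toPoly.sub hdl)
      · rintro ⟨Q, c⟩
        simp only
        split_ifs <;> omega
    · have h1 : NPC.Poly (fun q : (QF × ℕ) × ℕ =>
          (if q.1.2 % 2 = 0 then dlQ q.1.1 (q.1.2 / 2) - thrQ q.1.1 (q.1.2 / 2) else 0)) := by
        refine NPC.Poly.ite (by fun_prop) (NPC.Poly.sub ?_ ?_) (by fun_prop)
        · exact hdl.comp (f := fun q : (QF × ℕ) × ℕ => q.1) (by fun_prop)
        · exact hthr.comp (f := fun q : (QF × ℕ) × ℕ => q.1) (by fun_prop)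
      exact poly_clr.comp (NPC.Poly.ite (NPC.Poly.decide_eq (by fun_prop) h1) (by fun_prop)
        (by fun_prop))

theorem poly_posQ : NPC.Poly posQ := by
  unfold posQ
  exact NPC.Poly.map (l := fun Q : QF => List.range (2 * (gdQ Q).G)) (F := fun Q c => colQ Q c)
    ((UPoly.const 2).mul upoly_G).range poly_colQ

theorem poly_inst : NPC.Poly inst := by
  unfold inst
  fun_prop

end Poly

theorem hard : PSPACEHard (lang Clickomania) := by
  intro L hL
  obtain ⟨f, hf, hwf, hf'⟩ := qbf_hard hL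
  refine ⟨fun x => bits (inst (posQ (f x))), polyTime_bits ?_, fun x => ?_⟩
  · exact poly_inst.comp (poly_posQ.comp hf)
  · rw [bits_mem_lang, instQ_iff (hwf x), hf' x]

end Pool.Agent.W2helper56.CK
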