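import Pool.Agent.W2helper56.CK.Defs
import Pool.Agent.H656R2.AK.Bisim

/-!
# Positions made of horizontal bands
-/

set_option autoImplicit false

namespace Pool.Agent.W2helper56.CK

open Relation

/-- labels of blocks -/
abbrev Lb := ℕ × ℕ × ℕ

/-- the colour of the blocks with a given label -/
def clr (x : Lb) : ℕ := Nat.pair x.1 (Nat.pair x.2.1 (if x.1 = 0 ∨ x.1 = 4 then 0 else x.2.2))

/-- the lowest segment -/
abbrev Y1 : Lb := (0, 0, 0)
/-- the third segment, of the same colour as the first one -/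
abbrev Y2 : Lb := (0, 0, 1)
/-- the segment between the two -/
abbrev Z : Lb := (1, 0, 0)
/-- the bands -/
abbrev bd (b : ℕ × ℕ) : Lb := (2, b.1, b.2)

theorem clr_eq {x y : Lb} : clr x = clr y ↔
    x.1 = y.1 ∧ x.2.1 = y.2.1 ∧ (x.1 = 0 ∨ x.1 = 4 ∨ x.2.2 = y.2.2) := by
  unfold clr
  rw [Nat.pair_eq_pair, Nat.pair_eq_pair]
  constructor
  · rintro ⟨h1, h2, h3⟩
    refine ⟨h1, h2, ?_⟩
    rw [h1] at h3 ⊢
    split_ifs at h3 with h
    · tauto
    · tauto
  · rintro ⟨h1, h2, h3⟩
    refine ⟨h1, h2, ?_⟩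
    rw [h1] at h3 ⊢
    split_ifs with h
    · rfl
    · tauto

/-- the data of a position -/
structure Sys where
  /-- the number of columns -/
  nc : ℕ
  /-- the names of the bands -/
  bs : List (ℕ × ℕ)
  /-- the basic thickness of the segments -/
  H : ℕ
  /-- the additional thickness of the segments in the columns -/
  ex : ℕ → Lb → ℕ
  /-- the length of the upper part of the columns -/
  zl : ℕ → ℕ
  /-- the index of the special block in it -/
  zt : ℕ → ℕ

namespace Sys

variable (S : Sys) (Rm : Finset Lb)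

/-- the segments -/
def stk : List Lb := Y1 :: Z :: Y2 :: S.bs.map bd

/-- the upper part of a column -/
def zone (c : ℕ) : List Lb :=
  (List.range (S.zl c)).map fun i => if i = S.zt c then (4, c / 2, c % 2) else (3, c, i)

/-- the remaining segments -/
def ls : List Lb := S.stk.filter fun l => decide (l ∉ Rm)

/-- the remaining upper part -/
def zs (c : ℕ) : List Lb := (S.zone c).filter fun l => decide (l ∉ Rm)

/-- the labels of a column -/
def col (c : ℕ) : List Lb :=
  (S.ls Rm).flatMap (fun l => List.replicate (S.H + S.ex c l) l) ++ S.zs Rm c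

/-- the position -/
def pos : Pos := (List.range S.nc).map fun c => (S.col Rm c).map clr

/-- the label of a place -/
def lab (x : ℕ × ℕ) : Option Lb := if x.1 < S.nc then (S.col Rm x.1)[x.2]? else none

/-- where a segment begins -/
def sp (c j : ℕ) : ℕ := (((S.ls Rm).take j).map fun l => S.H + S.ex c l).sum

/-- where the upper part begins -/
def tot (c : ℕ) : ℕ := ((S.ls Rm).map fun l => S.H + S.ex c l).sum

/-- the assumptions on the data -/
structure Wf : Prop where
  nodup : S.bs.Nodup
  nc : 0 < S.nc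
  even : S.nc % 2 = 0
  ex : ∀ c, (S.stk.map (S.ex c)).sum + 2 ≤ S.H
  zl : ∀ c, 2 ≤ S.zl c
  zt : ∀ c, S.zt c < S.zl c

variable {S Rm}

theorem cell_pos (x : ℕ × ℕ) : cell (S.pos Rm) x = (S.lab Rm x).map clr := by
  unfold cell lab pos
  rw [List.getD_eq_getElem?_getD, List.getElem?_map]
  split_ifs with h
  · rw [List.getElem?_range h]
    simp
  · rw [List.getElem?_eq_none (l := List.range S.nc) (by simpa using h)]
    simp

end Sys

theorem fr_get {α : Type} (f : α → ℕ) (t : List α) {a : α} : ∀ (l : List α) (j r : ℕ),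
    l[j]? = some a → ((l.take j).map f).sum ≤ r → r < ((l.take j).map f).sum + f a →
    (l.flatMap (fun x => List.replicate (f x) x) ++ t)[r]? = some a := by
  intro l
  induction l with
  | nil => intro j r h; simp at h
  | cons x l ih =>
    intro j r h h1 h2
    rw [List.flatMap_cons, List.append_assoc]
    cases j with
    | zero =>
      simp only [List.getElem?_cons_zero, Option.some.injEq] at h
      subst h
      simp only [List.take_zero, List.map_nil, List.sum_nil, zero_add] at h1 h2
      rw [List.getElem?_append_left (by simpa using h2)]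
      simp [h2]
    | succ j =>
      simp only [List.getElem?_cons_succ] at h
      simp only [List.take_succ_cons, List.map_cons, List.sum_cons] at h1 h2
      rw [List.getElem?_append_right (by simp; omega), List.length_replicate]
      exact ih j (r - f x) h (by omega) (by omega)

theorem fr_inv {α : Type} (f : α → ℕ) (t : List α) {a : α} : ∀ (l : List α) (r : ℕ),
    (l.flatMap (fun x => List.replicate (f x) x) ++ t)[r]? = some a →
    (∃ j, l[j]? = some a ∧ ((l.take j).map f).sum ≤ r ∧ r < ((l.take j).map f).sum + f a) ∨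
      ((l.map f).sum ≤ r ∧ t[r - (l.map f).sum]? = some a) := by
  intro l
  induction l with
  | nil => intro r h; right; simpa using h
  | cons x l ih =>
    intro r h
    rw [List.flatMap_cons, List.append_assoc] at h
    by_cases hr : r < f x
    · rw [List.getElem?_append_left (by simpa using hr)] at h
      simp only [List.getElem?_replicate, hr, if_true, Option.some.injEq] at h
      subst h
      exact Or.inl ⟨0, by simp, by simp, by simpa using hr⟩
    · rw [List.getElem?_append_right (by simp; omega), List.length_replicate] at h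
      rcases ih _ h with ⟨j, h1, h2, h3⟩ | ⟨h1, h2⟩
      · refine Or.inl ⟨j + 1, by simpa using h1, ?_, ?_⟩
        · simp only [List.take_succ_cons, List.map_cons, List.sum_cons]
          omega
        · simp only [List.take_succ_cons, List.map_cons, List.sum_cons]
          omega
      · refine Or.inr ⟨?_, ?_⟩
        · simp only [List.map_cons, List.sum_cons]
          omega
        · simp only [List.map_cons, List.sum_cons]
          rw [← Nat.sub_sub]
          exact h2

theorem take_sum_le {α : Type} (f : α → ℕ) (l : List α) (j : ℕ) :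
    ((l.take j).map f).sum ≤ (l.map f).sum := by
  conv_rhs => rw [← List.take_append_drop j l]
  rw [List.map_append, List.sum_append]
  omega

theorem filter_sum_le {α : Type} (f : α → ℕ) (p : α → Bool) (l : List α) :
    ((l.filter p).map f).sum ≤ (l.map f).sum := by
  induction l with
  | nil => simp
  | cons x l ih =>
    rw [List.filter_cons]
    split_ifs
    · simp only [List.map_cons, List.sum_cons]; omega
    · simp only [List.map_cons, List.sum_cons]; omega

theorem sum_add {α : Type} (H : ℕ) (f : α → ℕ) (l : List α) :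
    (l.map fun x => H + f x).sum = l.length * H + (l.map f).sum := by
  induction l with
  | nil => simp
  | cons x l ih =>
    simp only [List.map_cons, List.sum_cons, List.length_cons, ih]
    ring

namespace Sys

variable {S : Sys} {Rm : Finset Lb}

theorem mem_stk {l : Lb} : l ∈ S.stk ↔ l = Y1 ∨ l = Z ∨ l = Y2 ∨ ∃ b ∈ S.bs, l = bd b := by
  unfold stk
  simp only [List.mem_cons, List.mem_map]
  constructor
  · rintro (h | h | h | ⟨b, hb, h⟩)
    · exact Or.inl h
    · exact Or.inr (Or.inl h)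
    · exact Or.inr (Or.inr (Or.inl h))
    · exact Or.inr (Or.inr (Or.inr ⟨b, hb, h.symm⟩))
  · rintro (h | h | h | ⟨b, hb, h⟩)
    · exact Or.inl h
    · exact Or.inr (Or.inl h)
    · exact Or.inr (Or.inr (Or.inl h))
    · exact Or.inr (Or.inr (Or.inr ⟨b, hb, h.symm⟩))

theorem mem_ls {l : Lb} : l ∈ S.ls Rm ↔ l ∈ S.stk ∧ l ∉ Rm := by
  unfold ls
  simp

theorem kind_stk {l : Lb} (h : l ∈ S.stk) : l.1 ≤ 2 := by
  rw [mem_stk] at h
  rcases h with rfl | rfl | rfl | ⟨b, _, rfl⟩ <;> simp

theorem kind_zone {l : Lb} {c : ℕ} (h : l ∈ S.zone c) : l = (4, c / 2, c % 2) ∨ ∃ i, l = (3, c, i) := by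
  unfold zone at h
  rw [List.mem_map] at h
  obtain ⟨i, _, rfl⟩ := h
  split_ifs
  · exact Or.inl rfl
  · exact Or.inr ⟨i, rfl⟩

theorem kind_zs {l : Lb} {c : ℕ} (h : l ∈ S.zs Rm c) :
    l ∉ Rm ∧ (l = (4, c / 2, c % 2) ∨ ∃ i, l = (3, c, i)) := by
  unfold zs at h
  rw [List.mem_filter] at h
  exact ⟨by simpa using h.2, kind_zone h.1⟩

theorem zone_nodup (c : ℕ) : (S.zone c).Nodup := by
  unfold zone
  refine List.Nodup.map_on ?_ List.nodup_range
  intro i _ j _ h
  split_ifs at h with h1 h2 h2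
  · rw [h1, h2]
  · simp at h
  · simp at h
  · simpa using h

theorem stk_nodup (hS : S.Wf) : S.stk.Nodup := by
  unfold stk
  have h1 : (S.bs.map bd).Nodup := List.Nodup.map (fun a b h => by
    simp only [Prod.mk.injEq, true_and] at h
    exact Prod.ext h.1 h.2) hS.nodup
  simp only [List.nodup_cons, List.mem_cons, List.mem_map, not_or, h1]
  simp

theorem lab_inv {c r : ℕ} {l : Lb} (h : S.lab Rm (c, r) = some l) : c < S.nc ∧
    ((∃ j, (S.ls Rm)[j]? = some l ∧ S.sp Rm c j ≤ r ∧ r < S.sp Rm c j + (S.H + S.ex c l)) ∨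
      (S.tot Rm c ≤ r ∧ (S.zs Rm c)[r - S.tot Rm c]? = some l)) := by
  unfold lab at h
  split_ifs at h with h1
  · exact ⟨h1, fr_inv _ _ _ _ h⟩

theorem lab_stk {c r j : ℕ} {l : Lb} (hc : c < S.nc) (h : (S.ls Rm)[j]? = some l)
    (h1 : S.sp Rm c j ≤ r) (h2 : r < S.sp Rm c j + (S.H + S.ex c l)) : S.lab Rm (c, r) = some l := by
  unfold lab
  rw [if_pos hc]
  exact fr_get _ _ _ _ _ h h1 h2

theorem length_flat (c : ℕ) :
    ((S.ls Rm).flatMap (fun l => List.replicate (S.H + S.ex c l) l)).length = S.tot Rm c := by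
  unfold tot
  rw [List.length_flatMap]
  simp

theorem lab_zone {c i : ℕ} (hc : c < S.nc) :
    S.lab Rm (c, S.tot Rm c + i) = (S.zs Rm c)[i]? := by
  unfold lab
  rw [if_pos hc]
  unfold col
  rw [List.getElem?_append_right (by rw [length_flat]; exact Nat.le_add_right _ _), length_flat,
    Nat.add_sub_cancel_left]

/-- stack labels are at the places of their segment -/
theorem lab_stk_iff {c r : ℕ} {l : Lb} (hl : l.1 ≤ 2) : S.lab Rm (c, r) = some l ↔
    c < S.nc ∧ ∃ j, (S.ls Rm)[j]? = some l ∧ S.sp Rm c j ≤ r ∧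
      r < S.sp Rm c j + (S.H + S.ex c l) := by
  constructor
  · intro h
    obtain ⟨h1, h2 | ⟨_, h2⟩⟩ := lab_inv h
    · exact ⟨h1, h2⟩
    · exfalso
      rcases (kind_zs (List.mem_of_getElem? h2)).2 with rfl | ⟨i, rfl⟩ <;> simp at hl
  · rintro ⟨h1, j, h2, h3, h4⟩
    exact lab_stk h1 h2 h3 h4

theorem lab_zone_inv {c r : ℕ} {l : Lb} (hl : 3 ≤ l.1) (h : S.lab Rm (c, r) = some l) :
    c < S.nc ∧ S.tot Rm c ≤ r ∧ (S.zs Rm c)[r - S.tot Rm c]? = some l := by
  obtain ⟨h1, ⟨j, h2, _⟩ | ⟨h2, h3⟩⟩ := lab_inv h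
  · have := kind_stk (mem_ls.1 (List.mem_of_getElem? h2)).1
    omega
  · exact ⟨h1, h2, h3⟩

theorem sp_eq (c : ℕ) {j : ℕ} (hj : j ≤ (S.ls Rm).length) :
    S.sp Rm c j = j * S.H + (((S.ls Rm).take j).map (S.ex c)).sum := by
  unfold sp
  rw [sum_add, List.length_take, min_eq_left hj]

theorem sp_ge (c : ℕ) {j : ℕ} (hj : j ≤ (S.ls Rm).length) : j * S.H ≤ S.sp Rm c j := by
  rw [sp_eq c hj]
  omega

theorem sp_le (hS : S.Wf) (c : ℕ) {j : ℕ} (hj : j ≤ (S.ls Rm).length) :
    S.sp Rm c j + 2 ≤ (j + 1) * S.H := by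
  rw [sp_eq c hj]
  have h1 := take_sum_le (S.ex c) (S.ls Rm) j
  have h2 := filter_sum_le (S.ex c) (fun l => decide (l ∉ Rm)) S.stk
  have h3 := hS.ex c
  unfold ls at h1 ⊢
  rw [Nat.add_mul, one_mul]
  omega

theorem sp_succ (c : ℕ) {j : ℕ} {l : Lb} (hj : (S.ls Rm)[j]? = some l) :
    S.sp Rm c (j + 1) = S.sp Rm c j + (S.H + S.ex c l) := by
  unfold sp
  rw [List.take_add_one, hj]
  simp

/-- The rows of a segment. -/
theorem row_bounds (hS : S.Wf) {c r j : ℕ} {l : Lb} (hj : (S.ls Rm)[j]? = some l)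
    (h1 : S.sp Rm c j ≤ r) (h2 : r < S.sp Rm c j + (S.H + S.ex c l)) :
    j * S.H ≤ r ∧ r + 2 < (j + 2) * S.H := by
  have hj' : j < (S.ls Rm).length := (List.getElem?_eq_some_iff.1 hj).1
  have h3 := sp_ge (S := S) (Rm := Rm) c hj'.le
  have h4 := sp_le (Rm := Rm) hS c (Nat.succ_le_of_lt hj')
  rw [Nat.succ_eq_add_one, sp_succ c hj] at h4
  constructor
  · omega
  · have : (j + 1 + 1) * S.H = (j + 2) * S.H := rfl
    omega

/-- every segment has a common row in all columns -/
theorem common_row (hS : S.Wf) {c j : ℕ} {l : Lb} (hj : (S.ls Rm)[j]? = some l) :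
    S.sp Rm c j ≤ (j + 1) * S.H - 2 ∧ (j + 1) * S.H - 1 < S.sp Rm c j + (S.H + S.ex c l) := by
  have hj' : j < (S.ls Rm).length := (List.getElem?_eq_some_iff.1 hj).1
  have h3 := sp_ge (S := S) (Rm := Rm) c (Nat.succ_le_of_lt hj')
  have h4 := sp_le (Rm := Rm) hS c hj'.le
  rw [Nat.succ_eq_add_one, sp_succ c hj] at h3
  have h5 := hS.ex c
  have h6 : (j + 1) * S.H = j * S.H + S.H := by ring
  constructor <;> omega

end Sys

theorem Share.symm {x y : ℕ × ℕ} (h : Share x y) : Share y x := by
  unfold Share at *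
  omega

theorem Adj.symm {P : Pos} {x y : ℕ × ℕ} (h : Adj P x y) : Adj P y x :=
  ⟨h.1.symm, h.2.2 ▸ h.2.1, h.2.2.symm⟩

theorem Share.ne {x y : ℕ × ℕ} (h : Share x y) : x ≠ y := by
  rintro rfl
  unfold Share at h
  omega

/-- reachability -/
abbrev Conn (P : Pos) (x y : ℕ × ℕ) : Prop := ReflTransGen (Adj P) x y

theorem Conn.symm {P : Pos} {x y : ℕ × ℕ} (h : Conn P x y) : Conn P y x := by
  induction h with
  | refl => exact .refl
  | tail _ hbc ih => exact ReflTransGen.head hbc.symm ih

namespace Sys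

variable {S : Sys} {Rm : Finset Lb}

theorem adj_iff {x y : ℕ × ℕ} : Adj (S.pos Rm) x y ↔ Share x y ∧ ∃ l l', S.lab Rm x = some l ∧
    S.lab Rm y = some l' ∧ clr l = clr l' := by
  unfold Adj
  rw [cell_pos, cell_pos]
  constructor
  · rintro ⟨h1, h2, h3⟩
    refine ⟨h1, ?_⟩
    cases hx : S.lab Rm x with
    | none => rw [hx] at h2; simp at h2
    | some l =>
      cases hy : S.lab Rm y with
      | none => rw [hx, hy] at h3; simp at h3
      | some l' =>
        rw [hx, hy] at h3
        exact ⟨l, l', rfl, rfl, by simpa using h3⟩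
  · rintro ⟨h1, l, l', h2, h3, h4⟩
    refine ⟨h1, ?_, ?_⟩
    · rw [h2]; simp
    · rw [h2, h3]; simp [h4]

theorem conn_vert {c j : ℕ} {l : Lb} (hc : c < S.nc) (hj : (S.ls Rm)[j]? = some l) (d : ℕ) :
    ∀ r, S.sp Rm c j ≤ r → r + d < S.sp Rm c j + (S.H + S.ex c l) →
    Conn (S.pos Rm) (c, r) (c, r + d) := by
  induction d with
  | zero => intro r _ _; exact .refl
  | succ d ih =>
    intro r h1 h2
    refine (ih r h1 (by omega)).tail ?_
    rw [adj_iff]
    exact ⟨Or.inl ⟨rfl, Or.inl rfl⟩, l, l, lab_stk hc hj (by omega) (by omega),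
      lab_stk hc hj (by omega) (by omega), rfl⟩

theorem conn_vert' {c j : ℕ} {l : Lb} (hc : c < S.nc) (hj : (S.ls Rm)[j]? = some l) {r r' : ℕ}
    (h1 : S.sp Rm c j ≤ r) (h2 : r < S.sp Rm c j + (S.H + S.ex c l))
    (h1' : S.sp Rm c j ≤ r') (h2' : r' < S.sp Rm c j + (S.H + S.ex c l)) :
    Conn (S.pos Rm) (c, r) (c, r') := by
  rcases le_total r r' with h | h
  · have := conn_vert hc hj (r' - r) r h1 (by omega)
    rwa [Nat.add_sub_cancel' h] at this
  · have := conn_vert hc hj (r - r') r' h1' (by omega)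
    rw [Nat.add_sub_cancel' h] at this
    exact this.symm

theorem conn_row (hS : S.Wf) {j : ℕ} {l : Lb} (hj : (S.ls Rm)[j]? = some l) : ∀ c, c < S.nc →
    Conn (S.pos Rm) (0, (j + 1) * S.H - 1) (c, (j + 1) * S.H - 1) := by
  intro c
  induction c with
  | zero => intro _; exact .refl
  | succ c ih =>
    intro hc
    refine (ih (by omega)).tail ?_
    rw [adj_iff]
    have h1 := common_row (c := c) hS hj
    have h2 := common_row (c := c + 1) hS hj
    exact ⟨Or.inr ⟨rfl, Or.inl rfl⟩, l, l, lab_stk (by omega) hj (by omega) (by omega),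
      lab_stk hc hj (by omega) (by omega), rfl⟩

/-- all places of a segment are connected -/
theorem conn_seg (hS : S.Wf) {l : Lb} (hl : l.1 ≤ 2) {x y : ℕ × ℕ} (hx : S.lab Rm x = some l)
    (hy : S.lab Rm y = some l) : Conn (S.pos Rm) x y := by
  obtain ⟨c, r⟩ := x
  obtain ⟨c', r'⟩ := y
  obtain ⟨h1, j, h2, h3, h4⟩ := (lab_stk_iff hl).1 hx
  obtain ⟨h1', j', h2', h3', h4'⟩ := (lab_stk_iff hl).1 hy
  have hjj : j = j' := by
    have hnd : (S.ls Rm).Nodup := (stk_nodup hS).filter _
    obtain ⟨h5, h6⟩ := List.getElem?_eq_some_iff.1 h2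
    obtain ⟨h5', h6'⟩ := List.getElem?_eq_some_iff.1 h2'
    exact (hnd.getElem_inj_iff).1 (h6.trans h6'.symm)
  subst hjj
  have ha := common_row (c := c) hS h2
  have hb := common_row (c := c') hS h2
  refine (conn_vert' h1 h2 h3 h4 (r' := (j + 1) * S.H - 1) (by omega) (by omega)).trans ?_
  refine (conn_row hS h2 c h1).symm.trans ((conn_row hS h2 c' h1').trans ?_)
  exact conn_vert' h1' h2 (by omega) (by omega) h3' h4'

/-- every remaining segment has two adjacent blocks -/
theorem exists_adj (hS : S.Wf) {l : Lb} (hl : l ∈ S.ls Rm) :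
    ∃ x y, Adj (S.pos Rm) x y ∧ S.lab Rm x = some l ∧ S.lab Rm y = some l := by
  obtain ⟨j, hj⟩ := List.mem_iff_getElem?.1 hl
  have ha := common_row (c := 0) hS hj
  have h6 : (j + 1) * S.H = j * S.H + S.H := by ring
  have h5 := hS.ex 0
  have e1 : S.lab Rm (0, (j + 1) * S.H - 2) = some l := lab_stk hS.nc hj (by omega) (by omega)
  have e2 : S.lab Rm (0, (j + 1) * S.H - 1) = some l := lab_stk hS.nc hj (by omega) (by omega)
  refine ⟨(0, (j + 1) * S.H - 2), (0, (j + 1) * S.H - 1), ?_, e1, e2⟩
  rw [adj_iff]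
  exact ⟨Or.inl ⟨rfl, Or.inl (by simp only; omega)⟩, l, l, e1, e2, rfl⟩

/-- the places with labels in a set -/
def GS (S : Sys) (Rm X : Finset Lb) : Set (ℕ × ℕ) := {x | ∃ l ∈ X, S.lab Rm x = some l}

theorem group_eq {X : Finset Lb} {x : ℕ × ℕ} (hx : x ∈ S.GS Rm X)
    (hcl : ∀ u ∈ S.GS Rm X, ∀ v, Adj (S.pos Rm) u v → v ∈ S.GS Rm X)
    (hc : ∀ u ∈ S.GS Rm X, Conn (S.pos Rm) x u) : Group (S.pos Rm) x = S.GS Rm X := by
  ext y
  constructor
  · intro h
    change Conn (S.pos Rm) x y at h
    induction h with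
    | refl => exact hx
    | tail _ hbc ih => exact hcl _ ih _ hbc
  · exact hc y

theorem filter_col (f : Lb → ℕ) (X : Finset Lb) (c : ℕ) (G : Set (ℕ × ℕ))
    [∀ x, Decidable (x ∈ G)] : ∀ (L : List Lb) (k : ℕ),
    (∀ r (h : r < L.length), (c, k + r) ∈ G ↔ L[r] ∈ X) →
    (((L.map f).zipIdx k).filter fun cj => decide ((c, cj.2) ∉ G)).map Prod.fst =
      (L.filter fun l => decide (l ∉ X)).map f := by
  intro L
  induction L with
  | nil => intro k _; simp
  | cons a L ih =>
    intro k h
    have h0 := h 0 (by simp)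
    have h1 := ih (k + 1) fun r hr => by
      have := h (r + 1) (by simpa using hr)
      simpa [Nat.add_assoc, Nat.add_comm 1 r] using this
    simp only [Nat.add_zero, List.getElem_cons_zero] at h0
    rw [List.map_cons, List.zipIdx_cons, List.filter_cons, List.filter_cons]
    by_cases ha : a ∈ X
    · have h2 := h0.2 ha
      simp only [h2, not_true_eq_false, decide_false, ha, Bool.false_eq_true, if_false]
      exact h1
    · have h2 := mt h0.1 ha
      simp only [h2, not_false_eq_true, decide_true, ha, if_true, List.map_cons, h1]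

theorem filter_flat {α : Type} (f : α → ℕ) (p : α → Bool) (l : List α) :
    (l.flatMap fun x => List.replicate (f x) x).filter p =
      (l.filter p).flatMap fun x => List.replicate (f x) x := by
  induction l with
  | nil => rfl
  | cons a l ih =>
    rw [List.flatMap_cons, List.filter_append, ih, List.filter_cons, List.filter_replicate]
    cases h : p a <;> simp

theorem col_union (X : Finset Lb) (c : ℕ) :
    (S.col Rm c).filter (fun l => decide (l ∉ X)) = S.col (Rm ∪ X) c := by
  unfold col ls zs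
  rw [List.filter_append, filter_flat, List.filter_filter, List.filter_filter]
  have h : ∀ l : Lb, (decide (l ∉ X) && decide (l ∉ Rm)) = decide (l ∉ Rm ∪ X) := by
    intro l
    simp only [Finset.mem_union, not_or, ← Bool.decide_and]
    exact decide_eq_decide.2 and_comm
  simp only [h]

theorem remove_eq {X : Finset Lb} (hne : ∀ c < S.nc, S.col (Rm ∪ X) c ≠ []) :
    remove (S.pos Rm) (S.GS Rm X) = S.pos (Rm ∪ X) := by
  classical
  have h1 : (S.pos Rm).mapIdx (fun i col => (col.zipIdx.filter fun cj =>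
      decide ((i, cj.2) ∉ S.GS Rm X)).map Prod.fst) = S.pos (Rm ∪ X) := by
    refine List.ext_getElem (by simp [pos]) ?_
    intro c h2 h3
    have hc : c < S.nc := by simpa [pos] using h3
    rw [List.getElem_mapIdx]
    have e : ∀ R : Finset Lb, ∀ h : c < (S.pos R).length, (S.pos R)[c] = (S.col R c).map clr := by
      intro R h
      simp [pos]
    rw [e, e, ← col_union]
    refine filter_col clr X c (S.GS Rm X) (S.col Rm c) 0 ?_
    intro r hr
    rw [Nat.zero_add]
    have h4 : S.lab Rm (c, r) = some (S.col Rm c)[r] := by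
      unfold lab
      rw [if_pos hc]
      exact List.getElem?_eq_getElem hr
    constructor
    · rintro ⟨l, hl, h5⟩
      rw [h4, Option.some.injEq] at h5
      rw [h5]
      exact hl
    · intro h5
      exact ⟨_, h5, h4⟩
  have h2 : (S.pos (Rm ∪ X)).filter (fun col => decide (col ≠ [])) = S.pos (Rm ∪ X) := by
    rw [List.filter_eq_self]
    intro a ha
    unfold pos at ha
    rw [List.mem_map] at ha
    obtain ⟨c, hc, rfl⟩ := ha
    rw [List.mem_range] at hc
    simpa using hne c hc
  unfold remove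
  refine Eq.trans ?_ h2
  congr 1

end Sys

end Pool.Agent.W2helper56.CK
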